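import Pool.Agent.K9h85.RW.Cut

set_option autoImplicit false

/-!
# Covering words by blocks of large rank

`Cov τ k w`: the word `w` is a concatenation of `k` words whose values have rank at least `τ`.  This
property only depends on the element of `IG` given by `w`.
-/

namespace Pool.Agent.K9h85.RW

open Pool.Agent.H213 RkMonoid Relation

variable {S : Type*} [RkMonoid S]

/-- `w` is a concatenation of `k` words whose values have rank at least `τ` -/
def Cov (τ : ℕ) : ℕ → List (Idem S) → Prop
  | 0, w => w = []
  | k + 1, w => ∃ p q, w = p ++ q ∧ τ ≤ rk (vl p) ∧ Cov τ k q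

theorem Cov.tail {τ k : ℕ} {b : Idem S} {q : List (Idem S)} (h : Cov τ k (b :: q)) : Cov τ k q := by
  induction k with
  | zero => exact absurd h (by simp [Cov])
  | succ k ih =>
    obtain ⟨p, r, h1, h2, h3⟩ := h
    cases p with
    | nil =>
      rw [List.nil_append] at h1
      refine ⟨[], q, rfl, h2, ?_⟩
      exact ih (by rw [h1]; exact h3)
    | cons x p =>
      rw [List.cons_append, List.cons.injEq] at h1
      refine ⟨p, r, h1.2, ?_, h3⟩
      rw [vl_cons] at h2
      exact h2.trans (rk_mul_le_right _ _)

theorem Cov.suffix {τ k : ℕ} (p : List (Idem S)) {q : List (Idem S)} (h : Cov τ k (p ++ q)) : Cov τ k q := by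
  induction p with
  | nil => exact h
  | cons x p ih => exact ih (Cov.tail h)

/-- replacing the first letter -/
theorem Cov.head {τ k : ℕ} {b c : Idem S} {q : List (Idem S)} (hbc : ∀ t : S, rk ((b : S) * t) ≤ rk ((c : S) * t))
    (h : Cov τ k (b :: q)) : Cov τ k (c :: q) := by
  induction k with
  | zero => exact absurd h (by simp [Cov])
  | succ k ih =>
    obtain ⟨p, r, h1, h2, h3⟩ := h
    cases p with
    | nil =>
      rw [List.nil_append] at h1
      refine ⟨[], c :: q, rfl, h2, ?_⟩
      exact ih (by rw [h1]; exact h3)
    | cons x p =>
      rw [List.cons_append, List.cons.injEq] at h1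
      refine ⟨c :: p, r, by rw [List.cons_append, h1.2], ?_, h3⟩
      rw [vl_cons, ← h1.1] at h2
      rw [vl_cons]
      exact h2.trans (hbc _)

theorem Cov.initial {τ : ℕ} (k : ℕ) : ∀ (p q : List (Idem S)), Cov τ k (p ++ q) → τ ≤ rk (1 : S) → Cov τ k p := by
  induction k with
  | zero =>
    intro p q h _
    have h' : p ++ q = [] := h
    exact (List.append_eq_nil_iff.1 h').1
  | succ k ih =>
    intro p q h h0
    obtain ⟨x, y, h1, h2, h3⟩ := h
    rw [List.append_eq_append_iff] at h1
    rcases h1 with ⟨a', ha, hb⟩ | ⟨c', hc, hd⟩
    · -- x = p ++ a'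
      refine ⟨p, [], by simp, ?_, ?_⟩
      · rw [ha, vl_append] at h2
        exact h2.trans (rk_mul_le_left _ _)
      · exact ih [] y h3 h0
    · -- p = x ++ c', y = c' ++ q
      refine ⟨x, c', hc, h2, ?_⟩
      exact ih c' q (by rw [← hd]; exact h3) h0

/-- the block structure and one step -/
theorem cov_step_aux {τ : ℕ} {a b c : Idem S} (hb : Basic (a : S) (b : S)) (hc : (a : S) * (b : S) = c) (k : ℕ) :
    ∀ (p q : List (Idem S)), Cov τ k (p ++ a :: b :: q) ↔ Cov τ k (p ++ c :: q) := by
  induction k with
  | zero =>
    intro p q
    simp [Cov]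
  | succ k ih =>
    intro p q
    constructor
    · rintro ⟨x, y, h1, h2, h3⟩
      rw [List.append_eq_append_iff] at h1
      rcases h1 with ⟨a', ha, hb'⟩ | ⟨c', hc', hd⟩
      · -- x = p ++ a', a :: b :: q = a' ++ y
        cases a' with
        | nil =>
          rw [List.append_nil] at ha
          rw [List.nil_append] at hb'
          refine ⟨p, c :: q, rfl, by rw [← ha]; exact h2, ?_⟩
          have := (ih [] q).1 (by rw [List.nil_append, hb']; exact h3)
          exact this
        | cons a1 a' =>
          rw [List.cons_append, List.cons.injEq] at hb'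
          obtain ⟨e1, hb'⟩ := hb'
          subst e1
          cases a' with
          | nil =>
            -- the cut is between `a` and `b`
            rw [List.nil_append] at hb'
            subst ha
            have h4 : Cov τ k (b :: q) := by rw [hb']; exact h3
            have h5 : Cov τ k q := Cov.tail h4
            rw [vl_append, vl_singleton] at h2
            have fin1 : τ ≤ rk (vl p * (c : S)) → ∃ p_1 q_1, p ++ c :: q = p_1 ++ q_1 ∧ τ ≤ rk (vl p_1) ∧ Cov τ k q_1 := by
              intro h6
              exact ⟨p ++ [c], q, by simp, by rw [vl_append, vl_singleton]; exact h6, h5⟩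
            rcases hb with h7 | h7 | h7 | h7
            · apply fin1
              rw [← hc, h7]; exact h2
            · have h8 : c = b := Subtype.ext (by rw [← hc, h7])
              refine ⟨p, c :: q, rfl, h2.trans (rk_mul_le_left _ _), ?_⟩
              rw [h8]; exact h4
            · apply fin1
              rw [← hc]
              have h8 : vl p * (a : S) = vl p * ((a : S) * (b : S)) * (a : S) := by
                calc vl p * (a : S) = vl p * ((a : S) * (a : S)) := by rw [a.mul_self]
                  _ = vl p * ((a : S) * ((b : S) * (a : S))) := by rw [h7]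
                  _ = _ := by simp only [mul_assoc]
              rw [h8] at h2
              exact h2.trans (rk_mul_le_left _ _)
            · refine ⟨p, c :: q, rfl, h2.trans (rk_mul_le_left _ _), ?_⟩
              apply Cov.head _ h4
              intro t
              have h8 : (b : S) * t = (b : S) * ((c : S) * t) := by
                rw [← hc]
                calc (b : S) * t = ((b : S) * (b : S)) * t := by rw [b.mul_self]
                  _ = (((b : S) * (a : S)) * (b : S)) * t := by rw [h7]
                  _ = _ := by simp only [mul_assoc]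
              rw [h8]
              exact rk_mul_le_right _ _
          | cons a2 a' =>
            rw [List.cons_append, List.cons.injEq] at hb'
            obtain ⟨e2, hb'⟩ := hb'
            subst e2
            refine ⟨p ++ c :: a', y, by rw [hb']; simp, ?_, h3⟩
            rw [ha, vl_append, vl_cons, vl_cons, ← mul_assoc (a : S), hc] at h2
            rw [vl_append, vl_cons]
            exact h2
      · -- p = x ++ c', y = c' ++ a :: b :: q
        refine ⟨x, c' ++ c :: q, by rw [hc']; simp, h2, ?_⟩
        exact (ih c' q).1 (by rw [← hd]; exact h3)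
    · rintro ⟨x, y, h1, h2, h3⟩
      rw [List.append_eq_append_iff] at h1
      rcases h1 with ⟨a', ha, hb'⟩ | ⟨c', hc', hd⟩
      · cases a' with
        | nil =>
          rw [List.append_nil] at ha
          rw [List.nil_append] at hb'
          refine ⟨p, a :: b :: q, rfl, by rw [← ha]; exact h2, ?_⟩
          exact (ih [] q).2 (by rw [List.nil_append, hb']; exact h3)
        | cons a1 a' =>
          rw [List.cons_append, List.cons.injEq] at hb'
          obtain ⟨e1, hb'⟩ := hb'
          subst e1
          refine ⟨p ++ a :: b :: a', y, by rw [hb']; simp, ?_, h3⟩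
          rw [ha, vl_append, vl_cons] at h2
          rw [vl_append, vl_cons, vl_cons, ← mul_assoc (a : S), hc]
          exact h2
      · refine ⟨x, c' ++ a :: b :: q, by rw [hc']; simp, h2, ?_⟩
        exact (ih c' q).2 (by rw [← hd]; exact h3)

theorem cov_step {τ k : ℕ} {u v : List (Idem S)} (h : StepW u v) : Cov τ k u ↔ Cov τ k v := by
  obtain ⟨p, q, a, b, c, hb, hc, rfl, rfl⟩ := h
  have := cov_step_aux (τ := τ) hb hc k p q
  simpa using this

theorem cov_congr {τ k : ℕ} {u v : List (Idem S)} (h : mkw u = mkw v) : Cov τ k u ↔ Cov τ k v := by
  have h1 := mkw_eq_iff.1 h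
  induction h1 with
  | rel x y hxy => exact cov_step hxy
  | refl x => exact Iff.rfl
  | symm x y h2 ih => exact (ih (mkw_eq_iff.2 h2)).symm
  | trans x y z h2 h3 ih1 ih2 => exact (ih1 (mkw_eq_iff.2 h2)).trans (ih2 (mkw_eq_iff.2 h3))

theorem regW_congr {u v : List (Idem S)} (h : mkw u = mkw v) : RegW u ↔ RegW v := by
  have h1 := mkw_eq_iff.1 h
  induction h1 with
  | rel x y hxy =>
    obtain ⟨p, q, a, b, c, hb, hc, rfl, rfl⟩ := hxy
    exact regW_step_iff hb hc
  | refl x => exact Iff.rfl
  | symm x y h2 ih => exact (ih (mkw_eq_iff.2 h2)).symm
  | trans x y z h2 h3 ih1 ih2 => exact (ih1 (mkw_eq_iff.2 h2)).trans (ih2 (mkw_eq_iff.2 h3))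

/-- words whose letters have large rank are covered by their letters -/
theorem cov_length {τ : ℕ} {w : List (Idem S)} (h : ∀ e ∈ w, τ ≤ rk (e : S)) : Cov τ w.length w := by
  induction w with
  | nil => rfl
  | cons e w ih =>
    refine ⟨[e], w, rfl, ?_, ih (fun x hx => h x (List.mem_cons_of_mem _ hx))⟩
    rw [vl_singleton]
    exact h e (by simp)

/-- a word in which no two neighbours fit into a block needs as many blocks as letters -/
theorem cov_ge {τ : ℕ} {w : List (Idem S)} (hw : List.IsChain (fun a b : Idem S => rk ((a : S) * (b : S)) < τ) w)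
    (k : ℕ) : Cov τ k w → w.length ≤ k := by
  induction k generalizing w with
  | zero =>
    intro h
    have h' : w = [] := h
    simp [h']
  | succ k ih =>
    rintro ⟨p, q, rfl, h2, h3⟩
    cases p with
    | nil =>
      have := ih (w := q) hw h3
      simp only [List.nil_append]
      omega
    | cons x p =>
      cases p with
      | nil =>
        have h4 : List.IsChain (fun a b : Idem S => rk ((a : S) * (b : S)) < τ) q := by
          have := hw.tail
          simpa using this
        have := ih h4 h3
        simp only [List.cons_append, List.nil_append, List.length_cons]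
        omega
      | cons y p =>
        exfalso
        have h4 : rk ((x : S) * (y : S)) < τ := by
          have h5 : List.IsChain (fun a b : Idem S => rk ((a : S) * (b : S)) < τ) (x :: y :: (p ++ q)) := by
            simpa using hw
          rw [List.isChain_cons_cons] at h5
          exact h5.1
        rw [vl_cons, vl_cons, ← mul_assoc] at h2
        have := h2.trans (rk_mul_le_left _ _)
        omega

end Pool.Agent.K9h85.RW
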