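import Pool.Agent.helper213_IG.Words

set_option autoImplicit false

/-!
# Cutting words at the first drop of the rank to zero

For words of idempotents of a monoid with a rank function: the part `restL s w` of the word `w` which
is left when the longest prefix `p` with `rk (s * p) ≠ 0` is removed, and the mirror image
`restR w s`.  If two words are equal in `IG` then the remaining parts generate the same left (right)
ideal of `IG`.
-/

namespace Pool.Agent.K9h85.RW

open Pool.Agent.H213 RkMonoid Relation

variable {S : Type*} [RkMonoid S]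

/-- `x` and `y` generate the same left ideal. -/
def LR {M : Type*} [Monoid M] (x y : M) : Prop := (∃ z, z * x = y) ∧ (∃ z, z * y = x)

/-- `x` and `y` generate the same right ideal. -/
def RR {M : Type*} [Monoid M] (x y : M) : Prop := (∃ z, x * z = y) ∧ (∃ z, y * z = x)

section
variable {M : Type*} [Monoid M]

theorem LR.refl (x : M) : LR x x := ⟨⟨1, one_mul x⟩, ⟨1, one_mul x⟩⟩
theorem RR.refl (x : M) : RR x x := ⟨⟨1, mul_one x⟩, ⟨1, mul_one x⟩⟩
theorem LR.symm {x y : M} (h : LR x y) : LR y x := ⟨h.2, h.1⟩
theorem RR.symm {x y : M} (h : RR x y) : RR y x := ⟨h.2, h.1⟩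
theorem LR.trans {x y z : M} (h : LR x y) (h' : LR y z) : LR x z := by
  obtain ⟨⟨a, ha⟩, ⟨b, hb⟩⟩ := h
  obtain ⟨⟨c, hc⟩, ⟨d, hd⟩⟩ := h'
  exact ⟨⟨c * a, by rw [mul_assoc, ha, hc]⟩, ⟨b * d, by rw [mul_assoc, hd, hb]⟩⟩
theorem RR.trans {x y z : M} (h : RR x y) (h' : RR y z) : RR x z := by
  obtain ⟨⟨a, ha⟩, ⟨b, hb⟩⟩ := h
  obtain ⟨⟨c, hc⟩, ⟨d, hd⟩⟩ := h'
  exact ⟨⟨a * c, by rw [← mul_assoc, ha, hc]⟩, ⟨d * b, by rw [← mul_assoc, hd, hb]⟩⟩
theorem LR.mul {x y : M} (h : LR x y) (t : M) : LR (x * t) (y * t) := by
  obtain ⟨⟨a, ha⟩, ⟨b, hb⟩⟩ := h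
  exact ⟨⟨a, by rw [← mul_assoc, ha]⟩, ⟨b, by rw [← mul_assoc, hb]⟩⟩
theorem RR.mul {x y : M} (h : RR x y) (t : M) : RR (t * x) (t * y) := by
  obtain ⟨⟨a, ha⟩, ⟨b, hb⟩⟩ := h
  exact ⟨⟨a, by rw [mul_assoc, ha]⟩, ⟨b, by rw [mul_assoc, hb]⟩⟩
theorem LR.map {N : Type*} [Monoid N] (f : M →* N) {x y : M} (h : LR x y) : LR (f x) (f y) := by
  obtain ⟨⟨a, ha⟩, ⟨b, hb⟩⟩ := h
  exact ⟨⟨f a, by rw [← map_mul, ha]⟩, ⟨f b, by rw [← map_mul, hb]⟩⟩
theorem RR.map {N : Type*} [Monoid N] (f : M →* N) {x y : M} (h : RR x y) : RR (f x) (f y) := by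
  obtain ⟨⟨a, ha⟩, ⟨b, hb⟩⟩ := h
  exact ⟨⟨f a, by rw [← map_mul, ha]⟩, ⟨f b, by rw [← map_mul, hb]⟩⟩
end

theorem LR.rk {x y : S} (h : LR x y) : rk x = rk y := by
  obtain ⟨⟨a, ha⟩, ⟨b, hb⟩⟩ := h
  apply le_antisymm
  · rw [← hb]; exact rk_mul_le_right _ _
  · rw [← ha]; exact rk_mul_le_right _ _

theorem RR.rk {x y : S} (h : RR x y) : rk x = rk y := by
  obtain ⟨⟨a, ha⟩, ⟨b, hb⟩⟩ := h
  apply le_antisymm
  · rw [← hb]; exact rk_mul_le_left _ _
  · rw [← ha]; exact rk_mul_le_left _ _

theorem rk_mul_zero_left {x : S} (h : rk x = 0) (y : S) : rk (x * y) = 0 :=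
  Nat.eq_zero_of_le_zero (h ▸ rk_mul_le_left x y)

theorem rk_mul_zero_right {x : S} (h : rk x = 0) (y : S) : rk (y * x) = 0 :=
  Nat.eq_zero_of_le_zero (h ▸ rk_mul_le_right y x)

/-! ### the left cut -/

/-- the part of `w` which is left when the longest prefix `p` with `rk (s * p) ≠ 0` is removed -/
noncomputable def restL : S → List (Idem S) → List (Idem S)
  | _, [] => []
  | s, e :: w => if rk (s * (e : S)) = 0 then e :: w else restL (s * e) w

theorem restL_nil (s : S) : restL s [] = [] := rfl

theorem restL_cons_zero {s : S} {e : Idem S} (h : rk (s * (e : S)) = 0) (w : List (Idem S)) :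
    restL s (e :: w) = e :: w := by
  rw [restL, if_pos h]

theorem restL_cons {s : S} {e : Idem S} (h : rk (s * (e : S)) ≠ 0) (w : List (Idem S)) :
    restL s (e :: w) = restL (s * e) w := by
  rw [restL, if_neg h]

theorem restL_zero {s : S} (h : rk s = 0) (w : List (Idem S)) : restL s w = w := by
  cases w with
  | nil => rfl
  | cons e w => exact restL_cons_zero (rk_mul_zero_left h _) w

theorem restL_append_zero (u t : List (Idem S)) : ∀ s : S, rk (s * vl u) = 0 →
    restL s (u ++ t) = restL s u ++ t := by
  induction u with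
  | nil =>
    intro s h
    rw [vl_nil, mul_one] at h
    rw [List.nil_append, restL_zero h, restL_nil, List.nil_append]
  | cons e u ih =>
    intro s h
    by_cases h1 : rk (s * (e : S)) = 0
    · rw [List.cons_append, restL_cons_zero h1, restL_cons_zero h1, List.cons_append]
    · rw [List.cons_append, restL_cons h1, restL_cons h1]
      apply ih
      rw [vl_cons, ← mul_assoc] at h
      exact h

theorem restL_append (u t : List (Idem S)) : ∀ s : S, rk (s * vl u) ≠ 0 →
    restL s (u ++ t) = restL (s * vl u) t := by
  induction u with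
  | nil => intro s _; rw [vl_nil, mul_one, List.nil_append]
  | cons e u ih =>
    intro s h
    rw [vl_cons, ← mul_assoc] at h ⊢
    have h1 : rk (s * (e : S)) ≠ 0 := fun h2 => h (rk_mul_zero_left h2 _)
    rw [List.cons_append, restL_cons h1]
    exact ih _ h

/-- the cut word is a suffix -/
theorem restL_suffix (w : List (Idem S)) : ∀ s : S, ∃ p, w = p ++ restL s w ∧ (p ≠ [] → rk (s * vl p) ≠ 0) := by
  induction w with
  | nil => intro s; exact ⟨[], by simp [restL_nil], by simp⟩
  | cons e w ih =>
    intro s
    by_cases h1 : rk (s * (e : S)) = 0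
    · exact ⟨[], by rw [restL_cons_zero h1]; rfl, by simp⟩
    · obtain ⟨p, hp, hp2⟩ := ih (s * e)
      refine ⟨e :: p, ?_, ?_⟩
      · rw [restL_cons h1, List.cons_append, ← hp]
      · intro _
        rw [vl_cons, ← mul_assoc]
        by_cases hpn : p = []
        · rw [hpn, vl_nil, mul_one]; exact h1
        · exact hp2 hpn

/-- the effect of one step on the cut word -/
theorem restL_step {u v : List (Idem S)} (h : StepW u v) (s : S) :
    LR (mkw (restL s u)) (mkw (restL s v)) := by
  obtain ⟨p, q, a, b, c, hb, hc, rfl, rfl⟩ := h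
  have hio : io a * io b = io c := io_mul hb hc
  by_cases hp : rk (s * vl p) = 0
  · rw [List.append_assoc, List.append_assoc, restL_append_zero p _ s hp, restL_append_zero p _ s hp]
    rw [mkw_append, mkw_append, mkw_append, mkw_append, mkw_cons, ← io]
    rw [hio]
    exact LR.refl _
  · rw [List.append_assoc, List.append_assoc, restL_append p _ s hp, restL_append p _ s hp]
    set t := s * vl p with ht
    have e1 : [a, b] ++ q = a :: b :: q := rfl
    have e2 : [c] ++ q = c :: q := rfl
    rw [e1, e2]
    by_cases h1 : rk (t * (c : S)) = 0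
    · rw [restL_cons_zero h1]
      by_cases h2 : rk (t * (a : S)) = 0
      · rw [restL_cons_zero h2, mkw_cons, mkw_cons, mkw_cons, ← mul_assoc, hio]
        exact LR.refl _
      · have h3 : rk (t * (a : S) * (b : S)) = 0 := by rw [mul_assoc, hc]; exact h1
        rw [restL_cons h2, restL_cons_zero h3]
        rcases hb with h4 | h4 | h4 | h4
        · exfalso
          apply h2
          rw [mul_assoc, h4] at h3
          exact h3
        · have : c = b := Subtype.ext (by rw [← hc, h4])
          rw [this]
          exact LR.refl _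
        · exfalso
          apply h2
          have h5 : t * (a : S) = t * (a : S) * (b : S) * (a : S) := by
            calc t * (a : S) = t * ((a : S) * (a : S)) := by rw [a.mul_self]
              _ = t * ((a : S) * ((b : S) * (a : S))) := by rw [h4]
              _ = _ := by simp only [mul_assoc]
          rw [h5]
          exact rk_mul_zero_left h3 _
        · have h5 : (b : S) * (c : S) = b := by
            rw [← hc, ← mul_assoc, h4, b.mul_self]
          have h6 : io b * io c = io b := io_mul_left h5
          refine ⟨⟨io a, ?_⟩, ⟨io b, ?_⟩⟩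
          · rw [mkw_cons, mkw_cons, ← mul_assoc, hio]
          · rw [mkw_cons, mkw_cons, ← mul_assoc, h6]
    · have h2 : rk (t * (a : S)) ≠ 0 := by
        intro h2
        apply h1
        rw [← hc, ← mul_assoc]
        exact rk_mul_zero_left h2 _
      have h3 : rk (t * (a : S) * (b : S)) ≠ 0 := by rw [mul_assoc, hc]; exact h1
      rw [restL_cons h1, restL_cons h2, restL_cons h3, mul_assoc, hc]
      exact LR.refl _

theorem restL_congr {u v : List (Idem S)} (h : mkw u = mkw v) (s : S) :
    LR (mkw (restL s u)) (mkw (restL s v)) := by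
  have h1 := mkw_eq_iff.1 h
  induction h1 with
  | rel x y hxy => exact restL_step hxy s
  | refl x => exact LR.refl _
  | symm x y h2 ih => exact (ih (mkw_eq_iff.2 h2)).symm
  | trans x y z h2 h3 ih1 ih2 => exact (ih1 (mkw_eq_iff.2 h2)).trans (ih2 (mkw_eq_iff.2 h3))

/-! ### the right cut -/

/-- auxiliary function for reversed words -/
noncomputable def restA : S → List (Idem S) → List (Idem S)
  | _, [] => []
  | s, e :: w => if rk ((e : S) * s) = 0 then e :: w else restA ((e : S) * s) w

/-- the part of `w` which is left when the longest suffix `q` with `rk (q * s) ≠ 0` is removed -/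
noncomputable def restR (w : List (Idem S)) (s : S) : List (Idem S) := (restA s w.reverse).reverse

theorem restR_nil (s : S) : restR [] s = [] := rfl

theorem restR_concat_zero {s : S} {e : Idem S} (h : rk ((e : S) * s) = 0) (w : List (Idem S)) :
    restR (w ++ [e]) s = w ++ [e] := by
  unfold restR
  rw [List.reverse_append, List.reverse_singleton, List.singleton_append, restA, if_pos h,
    List.reverse_cons, List.reverse_reverse]

theorem restR_concat {s : S} {e : Idem S} (h : rk ((e : S) * s) ≠ 0) (w : List (Idem S)) :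
    restR (w ++ [e]) s = restR w ((e : S) * s) := by
  unfold restR
  rw [List.reverse_append, List.reverse_singleton, List.singleton_append, restA, if_neg h]

theorem restR_zero {s : S} (h : rk s = 0) (w : List (Idem S)) : restR w s = w := by
  induction w using List.reverseRecOn with
  | nil => rfl
  | append_singleton w e _ => exact restR_concat_zero (rk_mul_zero_right h _) w

theorem restR_append_zero (u t : List (Idem S)) : ∀ s : S, rk (vl u * s) = 0 →
    restR (t ++ u) s = t ++ restR u s := by
  induction u using List.reverseRecOn with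
  | nil =>
    intro s h
    rw [vl_nil, one_mul] at h
    rw [List.append_nil, restR_zero h, restR_nil, List.append_nil]
  | append_singleton u e ih =>
    intro s h
    by_cases h1 : rk ((e : S) * s) = 0
    · rw [← List.append_assoc, restR_concat_zero h1, restR_concat_zero h1, List.append_assoc]
    · rw [← List.append_assoc, restR_concat h1, restR_concat h1]
      apply ih
      rw [vl_append, vl_singleton, mul_assoc] at h
      exact h

theorem restR_append (u t : List (Idem S)) : ∀ s : S, rk (vl u * s) ≠ 0 →
    restR (t ++ u) s = restR t (vl u * s) := by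
  induction u using List.reverseRecOn with
  | nil => intro s _; rw [vl_nil, one_mul, List.append_nil]
  | append_singleton u e ih =>
    intro s h
    rw [vl_append, vl_singleton, mul_assoc] at h ⊢
    have h1 : rk ((e : S) * s) ≠ 0 := fun h2 => h (rk_mul_zero_right h2 _)
    rw [← List.append_assoc, restR_concat h1]
    exact ih _ h

theorem restR_step {u v : List (Idem S)} (h : StepW u v) (s : S) :
    RR (mkw (restR u s)) (mkw (restR v s)) := by
  obtain ⟨p, q, a, b, c, hb, hc, rfl, rfl⟩ := h
  have hio : io a * io b = io c := io_mul hb hc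
  by_cases hq : rk (vl q * s) = 0
  · rw [restR_append_zero q _ s hq, restR_append_zero q _ s hq]
    rw [mkw_append, mkw_append, mkw_append, mkw_append, mkw_cons, ← io]
    rw [hio]
    exact RR.refl _
  · rw [restR_append q _ s hq, restR_append q _ s hq]
    set t := vl q * s with ht
    have e1 : p ++ [a, b] = (p ++ [a]) ++ [b] := by simp
    rw [e1]
    by_cases h1 : rk ((c : S) * t) = 0
    · rw [restR_concat_zero h1]
      by_cases h2 : rk ((b : S) * t) = 0
      · rw [restR_concat_zero h2, mkw_append, mkw_append, mkw_append]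
        change RR (mkw p * io a * io b) (mkw p * io c)
        rw [mul_assoc, hio]
        exact RR.refl _
      · have h3 : rk ((a : S) * ((b : S) * t)) = 0 := by rw [← mul_assoc, hc]; exact h1
        rw [restR_concat h2, restR_concat_zero h3]
        rcases hb with h4 | h4 | h4 | h4
        · have : c = a := Subtype.ext (by rw [← hc, h4])
          rw [this]
          exact RR.refl _
        · exfalso
          apply h2
          rw [← mul_assoc, h4] at h3
          exact h3
        · have h5 : (c : S) * (a : S) = a := by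
            rw [← hc, mul_assoc, h4, a.mul_self]
          have h6 : io c * io a = io a := io_mul_right h5
          refine ⟨⟨io b, ?_⟩, ⟨io a, ?_⟩⟩
          · rw [mkw_concat, mkw_concat, mul_assoc, hio]
          · rw [mkw_concat, mkw_concat, mul_assoc, h6]
        · exfalso
          apply h2
          have h5 : (b : S) * t = (b : S) * ((a : S) * ((b : S) * t)) := by
            calc (b : S) * t = ((b : S) * (b : S)) * t := by rw [b.mul_self]
              _ = (((b : S) * (a : S)) * (b : S)) * t := by rw [h4]
              _ = _ := by simp only [mul_assoc]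
          rw [h5]
          exact rk_mul_zero_right h3 _
    · have h2 : rk ((b : S) * t) ≠ 0 := by
        intro h2
        apply h1
        rw [← hc, mul_assoc]
        exact rk_mul_zero_right h2 _
      have h3 : rk ((a : S) * ((b : S) * t)) ≠ 0 := by rw [← mul_assoc, hc]; exact h1
      rw [restR_concat h1, restR_concat h2, restR_concat h3, ← mul_assoc, hc]
      exact RR.refl _

theorem restR_congr {u v : List (Idem S)} (h : mkw u = mkw v) (s : S) :
    RR (mkw (restR u s)) (mkw (restR v s)) := by
  have h1 := mkw_eq_iff.1 h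
  induction h1 with
  | rel x y hxy => exact restR_step hxy s
  | refl x => exact RR.refl _
  | symm x y h2 ih => exact (ih (mkw_eq_iff.2 h2)).symm
  | trans x y z h2 h3 ih1 ih2 => exact (ih1 (mkw_eq_iff.2 h2)).trans (ih2 (mkw_eq_iff.2 h3))

theorem restR_initial (w : List (Idem S)) : ∀ s : S, ∃ q, w = restR w s ++ q := by
  induction w using List.reverseRecOn with
  | nil => intro s; exact ⟨[], by simp [restR_nil]⟩
  | append_singleton w e ih =>
    intro s
    by_cases h1 : rk ((e : S) * s) = 0
    · exact ⟨[], by rw [restR_concat_zero h1]; simp⟩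
    · obtain ⟨q, hq⟩ := ih ((e : S) * s)
      refine ⟨q ++ [e], ?_⟩
      rw [restR_concat h1, ← List.append_assoc, ← hq]

end Pool.Agent.K9h85.RW
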