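import Pool.Agent.K9h85.RW.System

set_option autoImplicit false

/-!
# No finite complete rewriting system, list version
-/

namespace Pool.Agent.K9h85.RW

open Pool.Agent.H213 RkMonoid Pool.Agent.H213.PM Module Relation

variable {n : ℕ} {A : Type} {ex : A → List (Idem (PM n))} {R : Set (List A × List A)}

theorem length_flat {K : ℕ} (hK : ∀ α, (ex α).length ≤ K) (c : List A) : (c.flatMap ex).length ≤ c.length * K := by
  induction c with
  | nil => simp
  | cons a c ih =>
    rw [List.flatMap_cons, List.length_append, List.length_cons, Nat.add_mul, one_mul]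
    have := hK a
    omega

section
variable (hS : Sys ex R)
include hS

theorem Sys.loc_aux (hn : 5 ≤ n) {K M : ℕ} (hK : ∀ α, (ex α).length ≤ K) (hM : ∀ p ∈ R, p.1.length ≤ M)
    {x t y1 y2 l1 r1 l2 r2 : List A} (h1 : (l1, r1) ∈ R) (h2 : (l2, r2) ∈ R)
    (he : l1 ++ y1 = t ++ (l2 ++ y2)) (hw : Std hn (M * K) ((x ++ l1 ++ y1).flatMap ex)) :
    ∃ d q q', Path (LL ex hn R (M * K)) (x ++ r1 ++ y1) d q ∧
      Path (LL ex hn R (M * K)) (x ++ t ++ r2 ++ y2) d q' ∧
      xor (lab ex x l1 r1 y1) q = xor (lab ex (x ++ t) l2 r2 y2) q' := by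
  have hlen : ∀ c : List A, c.length ≤ 2 * M → (c.flatMap ex).length ≤ 2 * (M * K) := by
    intro c hc
    have h3 := length_flat hK c
    have h4 : c.length * K ≤ 2 * M * K := Nat.mul_le_mul_right _ hc
    rw [mul_assoc] at h4
    omega
  have m1 := hM _ h1
  have m2 := hM _ h2
  simp only at m1 m2
  rw [List.append_eq_append_iff] at he
  rcases he with ⟨s, rfl, rfl⟩ | ⟨c', hc1, hc2⟩
  · have e1 : x ++ l1 ++ (s ++ (l2 ++ y2)) = x ++ l1 ++ s ++ (l2 ++ y2) := by simp
    rw [e1] at hw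
    obtain ⟨d, q, q', p1, p2, p3⟩ := hS.loc_disjoint hn h1 h2 hw
    refine ⟨d, q, q', ?_, ?_, ?_⟩
    · have e2 : x ++ r1 ++ (s ++ (l2 ++ y2)) = x ++ r1 ++ s ++ (l2 ++ y2) := by simp
      rw [e2]; exact p1
    · have e2 : x ++ (l1 ++ s) ++ r2 ++ y2 = x ++ l1 ++ s ++ (r2 ++ y2) := by simp
      rw [e2]; exact p2
    · rw [← List.append_assoc x l1 s]; exact p3
  · rw [List.append_eq_append_iff] at hc2
    rcases hc2 with ⟨a', ha1, ha2⟩ | ⟨b', hb1, hb2⟩
    · -- l2 ++ y2 = c' ++ y1 with c' = l2 ++ a', y2 = a' ++ y1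
      have he : [] ++ l1 ++ [] = t ++ l2 ++ a' := by rw [hc1, ha1]; simp
      have hw' : Std hn (M * K) ((x ++ ([] ++ l1 ++ []) ++ y1).flatMap ex) := by simpa using hw
      obtain ⟨d, q, q', p1, p2, p3⟩ := hS.loc_overlap hn he (hlen _ (by simp; omega)) h1 h2 hw'
      refine ⟨d, q, q', ?_, ?_, ?_⟩
      · simpa using p1
      · rw [ha2]; simpa using p2
      · rw [ha2]; simpa using p3
    · -- l2 = c' ++ b', y1 = b' ++ y2
      have he : [] ++ l1 ++ b' = t ++ l2 ++ [] := by rw [hc1, hb1]; simp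
      have hw' : Std hn (M * K) ((x ++ ([] ++ l1 ++ b') ++ y2).flatMap ex) := by
        rw [hb2] at hw; simpa using hw
      have hb : b'.length ≤ M := by
        rw [hb1, List.length_append] at m2; omega
      obtain ⟨d, q, q', p1, p2, p3⟩ := hS.loc_overlap hn he (hlen _ (by simp; omega)) h1 h2 hw'
      refine ⟨d, q, q', ?_, ?_, ?_⟩
      · rw [hb2]; simpa using p1
      · simpa using p2
      · rw [hb2]; simpa using p3

theorem Sys.loc (hn : 5 ≤ n) {K M : ℕ} (hK : ∀ α, (ex α).length ≤ K) (hM : ∀ p ∈ R, p.1.length ≤ M)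
    (a b b' : List A) (p p' : Bool) (h1 : LL ex hn R (M * K) a b p) (h2 : LL ex hn R (M * K) a b' p') :
    ∃ d q q', Path (LL ex hn R (M * K)) b d q ∧ Path (LL ex hn R (M * K)) b' d q' ∧ xor p q = xor p' q' := by
  obtain ⟨hw, x1, y1, l1, r1, k1, e1, f1, g1⟩ := h1
  obtain ⟨-, x2, y2, l2, r2, k2, e2, f2, g2⟩ := h2
  have he : x1 ++ (l1 ++ y1) = x2 ++ (l2 ++ y2) := by
    rw [← List.append_assoc, ← List.append_assoc, ← e1, ← e2]
  rw [List.append_eq_append_iff] at he
  rcases he with ⟨t, ht, he⟩ | ⟨t, ht, he⟩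
  · subst ht
    rw [e1] at hw
    obtain ⟨d, q, q', p1, p2, p3⟩ := hS.loc_aux hn hK hM k1 k2 he hw
    exact ⟨d, q, q', by rw [f1]; exact p1, by rw [f2]; exact p2, by rw [g1, g2]; exact p3⟩
  · subst ht
    rw [e2] at hw
    obtain ⟨d, q, q', p1, p2, p3⟩ := hS.loc_aux hn hK hM k2 k1 he hw
    exact ⟨d, q', q, by rw [f1]; exact p2, by rw [f2]; exact p1, by rw [g1, g2]; exact p3.symm⟩

/-- **There is no finite complete system.** -/
theorem Sys.absurd (hn : 5 ≤ n) : False := by
  classical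
  obtain ⟨K, hK⟩ := hS.len
  obtain ⟨M, hM⟩ := hS.fin
  have hwf : WellFounded (fun y x => ∃ p, LL ex hn R (M * K) x y p) := by
    refine Subrelation.wf (r := fun y x => LStep R x y) ?_ hS.wf
    rintro y x ⟨p, -, x', y', l, r, h, e, f, -⟩
    exact ⟨x', y', l, r, h, e, f⟩
  obtain ⟨Φ, hΦ⟩ := exists_potential _ hwf (hS.loc hn hK hM)
  set m := M * K with hm
  -- the words
  obtain ⟨X', hX'0, hX'⟩ := hS.surj (iA hn :: (lC hn m ++ [i1 hn])) (by simp)
  obtain ⟨E2, hE20, hE2⟩ := hS.surj [i2 hn] (by simp)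
  obtain ⟨B, hB0, hB⟩ := hS.surj [iB hn] (by simp)
  obtain ⟨G, hG0, hG⟩ := hS.surj [bi (pt hn 0) (pt hn 4), bi (pt hn 1) (pt hn 0), bi (pt hn 4) (pt hn 1)] (by simp)
  have hGg : mkw (G.flatMap ex) = gg hn := by
    rw [hG]
    unfold gg gam
    simp only [mkw_cons, mkw_nil, mul_one, mul_assoc]
    rfl
  have hX : Lft hn m ((X' ++ E2).flatMap ex) := by
    unfold Lft
    rw [List.flatMap_append, mkw_append, hX', hE2, ← mkw_append, lC_succ']
    congr 1
    simp
  have hrX' : rk (vl (X'.flatMap ex)) = 0 := by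
    rw [vl_congr hX']
    have e : iA hn :: (lC hn m ++ [i1 hn]) = (iA hn :: (lC hn m ++ [i1 hn])) := rfl
    cases hm' : m with
    | zero =>
      rw [lC_zero, List.nil_append, vl_cons, vl_singleton, rkA1]
    | succ k =>
      rw [lC_succ, List.cons_append, vl_cons, vl_cons, ← mul_assoc]
      exact rk_mul_zero_left (rkA1 hn) _
  have hXm : mkw ((X' ++ E2).flatMap ex) = io (iA hn) * (io (i1 hn) * io (i2 hn)) ^ (m + 1) := by
    rw [hX, mkw_cons, mkw_lC]
  -- the word X G b
  have hXG : mkw ((X' ++ E2 ++ G).flatMap ex) = mkw ((X' ++ E2).flatMap ex) := by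
    rw [List.flatMap_append, mkw_append, hXm, hGg, left_id]
  have hEGB : mkw ((E2 ++ G ++ B).flatMap ex) = mkw ((E2 ++ B).flatMap ex) := by
    rw [flat3, mkw_append, mkw_append, List.flatMap_append, mkw_append, hE2, hGg, hB]
    have e1 : mkw [i2 hn] = io (i2 hn) := rfl
    have e2 : mkw [iB hn] = io (iB hn) := rfl
    rw [e1, e2, right_id]
  have hXB : Std hn m ((X' ++ E2 ++ B).flatMap ex) := by
    unfold Std
    rw [List.flatMap_append, mkw_append, hX, hB, ← mkw_append]
    rfl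
  -- first path
  have path1 : ∀ Y Y' : List A, EqvGen (LStep R) Y Y' → mkw (Y.flatMap ex) = mkw (Y'.flatMap ex) ∧
      (Std hn m ((X' ++ Y).flatMap ex) → Φ (X' ++ Y) = Φ (X' ++ Y')) := by
    intro Y Y' h
    induction h with
    | rel Y Y' h =>
      refine ⟨hS.step_mkw h, fun hw => ?_⟩
      obtain ⟨x, y, l, r, hlr, rfl, rfl⟩ := h
      have hs : LL ex hn R m (X' ++ (x ++ l ++ y)) (X' ++ (x ++ r ++ y)) (lab ex (X' ++ x) l r y) :=
        ⟨hw, X' ++ x, y, l, r, hlr, by simp, by simp, rfl⟩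
      have hl : lab ex (X' ++ x) l r y = false := by
        unfold lab
        rw [if_pos]
        rw [List.flatMap_append, vl_append]
        exact rk_mul_zero_left hrX' _
      have := hΦ _ _ _ hs
      rw [hl, Bool.false_xor] at this
      exact this
    | refl Y => exact ⟨rfl, fun _ => rfl⟩
    | symm Y Y' _ ih =>
      refine ⟨ih.1.symm, fun hw => (ih.2 ?_).symm⟩
      unfold Std at hw ⊢
      rw [← hw, List.flatMap_append, List.flatMap_append, mkw_append, mkw_append, ih.1]
    | trans Y Y' Y'' _ _ ih1 ih2 =>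
      refine ⟨ih1.1.trans ih2.1, fun hw => (ih1.2 hw).trans (ih2.2 ?_)⟩
      unfold Std at hw ⊢
      rw [← hw, List.flatMap_append, List.flatMap_append, mkw_append, mkw_append, ih1.1]
  -- second path
  let Ψ : List A → Bool := fun c => decide (Sg (vl (restL 1 (c.flatMap ex))))
  have path2 : ∀ c c' : List A, EqvGen (LStep R) c c' → mkw (c.flatMap ex) = mkw (c'.flatMap ex) ∧
      (Lft hn m (c.flatMap ex) → xor (Φ (c ++ B)) (Ψ c) = xor (Φ (c' ++ B)) (Ψ c')) := by
    intro c c' h
    induction h with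
    | rel c c' h =>
      refine ⟨hS.step_mkw h, fun hw => ?_⟩
      obtain ⟨x, y, l, r, hlr, rfl, rfl⟩ := h
      have hstd : Std hn m ((x ++ l ++ y ++ B).flatMap ex) := by
        unfold Std
        rw [List.flatMap_append, mkw_append, hw, hB, ← mkw_append]
        rfl
      have hs : LL ex hn R m (x ++ l ++ y ++ B) (x ++ r ++ y ++ B) (lab ex x l r (y ++ B)) :=
        ⟨hstd, x, y ++ B, l, r, hlr, by simp, by simp, rfl⟩
      have h1 := hΦ _ _ _ hs
      have k1 := hS.sound _ hlr
      simp only at k1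
      by_cases hx : rk (vl (x.flatMap ex)) = 0
      · have hl : lab ex x l r (y ++ B) = false := by
          unfold lab; rw [if_pos hx]
        rw [hl, Bool.false_xor] at h1
        have h2 : Ψ (x ++ l ++ y) = Ψ (x ++ r ++ y) := by
          show decide _ = decide _
          rw [flat3, flat3, sg_left_zero k1 hx]
        rw [h1, h2]
      · have hl : lab ex x l r (y ++ B) = xor (sgb ex (x ++ l ++ y ++ B)) (sgb ex (x ++ r ++ y ++ B)) := by
          unfold lab
          rw [if_neg hx, ← List.append_assoc, ← List.append_assoc]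
        have hlen : (l.flatMap ex).length ≤ 2 * m := by
          have h3 := length_flat hK l
          have h4 := hM _ hlr
          simp only at h4
          have h5 : l.length * K ≤ M * K := Nat.mul_le_mul_right _ h4
          omega
        have key := sg_left hn (m := m) (x := x.flatMap ex) (y := y.flatMap ex) (b := B.flatMap ex) k1 hB
          (by rw [← flat3]; exact hw) hx hlen
        rw [← flat3, ← flat3, ← List.flatMap_append, ← List.flatMap_append] at key
        rw [hl] at h1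
        rw [h1]
        show xor (xor (xor (decide _) (decide _)) _) (decide _) = xor _ (decide _)
        generalize Φ (x ++ r ++ y ++ B) = φ
        by_cases q1 : Sg (vl (midW ((x ++ l ++ y ++ B).flatMap ex))) <;>
        by_cases q2 : Sg (vl (midW ((x ++ r ++ y ++ B).flatMap ex))) <;>
        by_cases q3 : Sg (vl (restL 1 ((x ++ l ++ y).flatMap ex))) <;>
        by_cases q4 : Sg (vl (restL 1 ((x ++ r ++ y).flatMap ex))) <;>
        simp_all
    | refl c => exact ⟨rfl, fun _ => rfl⟩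
    | symm c c' _ ih =>
      refine ⟨ih.1.symm, fun hw => (ih.2 ?_).symm⟩
      unfold Lft at hw ⊢
      rw [← hw, ih.1]
    | trans c c' c'' _ _ ih1 ih2 =>
      refine ⟨ih1.1.trans ih2.1, fun hw => (ih1.2 hw).trans (ih2.2 ?_)⟩
      unfold Lft at hw ⊢
      rw [← hw, ih1.1]
  -- the contradiction
  have z1 := hS.complete (E2 ++ G ++ B) (E2 ++ B) (by simp [hE20]) (by simp [hE20]) hEGB
  have z2 := hS.complete (X' ++ E2 ++ G) (X' ++ E2) (by simp [hX'0]) (by simp [hX'0]) hXG
  have hstd1 : Std hn m ((X' ++ (E2 ++ G ++ B)).flatMap ex) := by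
    unfold Std at hXB ⊢
    rw [← hXB, List.flatMap_append, mkw_append, hEGB, ← mkw_append, ← List.flatMap_append, ← List.append_assoc]
  have c1 := (path1 _ _ z1).2 hstd1
  have hlft : Lft hn m ((X' ++ E2 ++ G).flatMap ex) := by
    unfold Lft at hX ⊢
    rw [hXG, hX]
  have c2 := (path2 _ _ z2).2 hlft
  have e1 : X' ++ (E2 ++ G ++ B) = X' ++ E2 ++ G ++ B := by simp
  have e2 : X' ++ (E2 ++ B) = X' ++ E2 ++ B := by simp
  rw [e1, e2] at c1
  rw [c1] at c2
  have c3 : Ψ (X' ++ E2 ++ G) = Ψ (X' ++ E2) := by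
    revert c2
    generalize Φ (X' ++ E2 ++ B) = φ
    generalize Ψ (X' ++ E2 ++ G) = ψ1
    generalize Ψ (X' ++ E2) = ψ2
    cases φ <;> cases ψ1 <;> cases ψ2 <;> simp
  have c4 := sg_gg hn hX hGg
  rw [← List.flatMap_append] at c4
  have c5 := decide_eq_decide.1 c3
  tauto

end

end Pool.Agent.K9h85.RW
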