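import Pool.Agent.helper213_IG.Pairs

set_option autoImplicit false

/-!
# Transposing two through points in `IG (PM n)`

`gam x y f` is a product of three idempotents which exchanges the points `x`, `y` with the help of the
free point `f`; `alp x y f` is the mirror image.
-/

namespace Pool.Agent.K9h85.RW

open Pool.Agent.H213 RkMonoid Pool.Agent.H213.PM Module

variable {n : ℕ}

/-- exchange of `x` and `y`, acting from the right -/
def gam (x y f : Fin n) : IG (PM n) := be x f * be y x * be f y

/-- exchange of `x` and `y`, acting from the left -/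
def alp (x y f : Fin n) : IG (PM n) := al f y * al y x * al x f

/-! ### partial exchanges -/

theorem mem_C_gam {x y f : Fin n} (hxy : x ≠ y) (hxf : x ≠ f) (hyf : y ≠ f) {J : Set (Fin n)} (hx : x ∈ J)
    (hy : y ∈ J) (hf : f ∉ J) {u v : Vec n} :
    (u, v) ∈ (Es J * val (gam x y f)).C ↔ u x = v y ∧ u y = v x ∧ ∀ i ∈ J, i ≠ x → i ≠ y → u i = v i := by
  classical
  have e : Es J * val (gam x y f) = Es J * (tt x f * ss x) * (tt y x * ss y) * (tt f y * ss f) := by
    unfold gam
    rw [map_mul, map_mul, val_be, val_be, val_be]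
    simp only [mul_assoc]
  rw [e]
  constructor
  · intro h
    obtain ⟨h3, h, h3g⟩ := mem_C_mul.1 h
    obtain ⟨h2, h, h23⟩ := mem_C_mul.1 h
    obtain ⟨h1, h01, h12⟩ := mem_C_mul.1 h
    rw [mem_C_Es] at h01
    rw [mem_C_b] at h12 h23 h3g
    refine ⟨?_, ?_, ?_⟩
    · rw [h01 x hx, h12.2, h12.1 f hxf.symm, h23.1 f hyf.symm, h3g.2, h3g.1 y hyf]
    · rw [h01 y hy, h12.1 y hxy.symm, h23.2, h23.1 x hxy, h3g.1 x hxf]
    · intro i hi hix hiy
      have hif : i ≠ f := fun h => hf (h ▸ hi)
      rw [h01 i hi, h12.1 i hix, h23.1 i hiy, h3g.1 i hif]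
  · rintro ⟨e1, e2, e3⟩
    refine mem_C_mul.2 ⟨Function.update v f (v y), ?_, ?_⟩
    · refine mem_C_mul.2 ⟨Function.update (Function.update v f (v y)) y (v x), ?_, ?_⟩
      · refine mem_C_mul.2 ⟨Function.update (Function.update (Function.update v f (v y)) y (v x)) x (v y), ?_, ?_⟩
        · rw [mem_C_Es]
          intro i hi
          have hif : i ≠ f := fun h => hf (h ▸ hi)
          by_cases h1 : i = x
          · subst h1; simp [e1]
          · by_cases h2 : i = y
            · subst h2; simp [h1, e2]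
            · simp [h1, h2, hif, e3 i hi h1 h2]
        · rw [mem_C_b]
          refine ⟨fun k hk => by simp [hk], ?_⟩
          simp [hxf.symm, hyf.symm]
      · rw [mem_C_b]
        refine ⟨fun k hk => by simp [hk], ?_⟩
        simp [hxy, hxf]
    · rw [mem_C_b]
      refine ⟨fun k hk => by simp [hk], ?_⟩
      simp [hyf]

theorem mem_C_alp {x y f : Fin n} (hxy : x ≠ y) (hxf : x ≠ f) (hyf : y ≠ f) {J : Set (Fin n)} (hx : x ∈ J)
    (hy : y ∈ J) (hf : f ∉ J) {u v : Vec n} :
    (u, v) ∈ (val (alp x y f) * Es J).C ↔ u x = v y ∧ u y = v x ∧ ∀ i ∈ J, i ≠ x → i ≠ y → u i = v i := by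
  classical
  have e : val (alp x y f) * Es J = (ss f * tt f y) * ((ss y * tt y x) * ((ss x * tt x f) * Es J)) := by
    unfold alp
    rw [map_mul, map_mul, val_al, val_al, val_al]
    simp only [mul_assoc]
  rw [e]
  constructor
  · intro h
    obtain ⟨h1, h01, h⟩ := mem_C_mul.1 h
    obtain ⟨h2, h12, h⟩ := mem_C_mul.1 h
    obtain ⟨h3, h23, h3g⟩ := mem_C_mul.1 h
    rw [mem_C_Es] at h3g
    rw [mem_C_a] at h01 h12 h23
    refine ⟨?_, ?_, ?_⟩
    · rw [h01.1 x hxf, h12.1 x hxy, ← h12.2, h23.1 y hxy.symm, h3g y hy]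
    · rw [h01.1 y hyf, ← h01.2, h12.1 f hyf.symm, h23.1 f hxf.symm, ← h23.2, h3g x hx]
    · intro i hi hix hiy
      have hif : i ≠ f := fun h => hf (h ▸ hi)
      rw [h01.1 i hif, h12.1 i hiy, h23.1 i hix, h3g i hi]
  · rintro ⟨e1, e2, e3⟩
    refine mem_C_mul.2 ⟨Function.update u f (u y), ?_, ?_⟩
    · rw [mem_C_a]
      refine ⟨fun k hk => by simp [hk], ?_⟩
      simp [hyf]
    · refine mem_C_mul.2 ⟨Function.update (Function.update u f (u y)) y (u x), ?_, ?_⟩
      · rw [mem_C_a]
        refine ⟨fun k hk => by simp [hk], ?_⟩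
        simp [hxy, hxf]
      · refine mem_C_mul.2 ⟨Function.update (Function.update (Function.update u f (u y)) y (u x)) x (u y), ?_, ?_⟩
        · rw [mem_C_a]
          refine ⟨fun k hk => by simp [hk], ?_⟩
          simp [hxf.symm, hyf.symm]
        · rw [mem_C_Es]
          intro i hi
          have hif : i ≠ f := fun h => hf (h ▸ hi)
          by_cases h1 : i = x
          · subst h1; simp [e2]
          · by_cases h2 : i = y
            · subst h2; simp [h1, e1]
            · simp [h1, h2, hif, e3 i hi h1 h2]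

theorem Es_gam_eq {x y f : Fin n} (hxy : x ≠ y) (hxf : x ≠ f) (hyf : y ≠ f) {J : Set (Fin n)} (hx : x ∈ J)
    (hy : y ∈ J) (hf : f ∉ J) : Es J * val (gam x y f) = val (alp x y f) * Es J := by
  apply ext_C
  intro u v
  rw [mem_C_gam hxy hxf hyf hx hy hf, mem_C_alp hxy hxf hyf hx hy hf]

theorem Es_gam_gam {x y f : Fin n} (hxy : x ≠ y) (hxf : x ≠ f) (hyf : y ≠ f) {J : Set (Fin n)} (hx : x ∈ J)
    (hy : y ∈ J) (hf : f ∉ J) : Es J * val (gam x y f) * val (gam x y f) = Es J := by
  classical
  have e : Es J * val (gam x y f) = (Es J * val (gam x y f)) * Es J := by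
    rw [Es_gam_eq hxy hxf hyf hx hy hf, mul_assoc, Es_idem]
  apply ext_C
  intro u v
  rw [e, mul_assoc, mem_C_mul]
  simp only [mem_C_gam hxy hxf hyf hx hy hf, mem_C_Es]
  constructor
  · rintro ⟨h, ⟨a1, a2, a3⟩, b1, b2, b3⟩ i hi
    by_cases h1 : i = x
    · subst h1; rw [a1, b2]
    · by_cases h2 : i = y
      · subst h2; rw [a2, b1]
      · rw [a3 i hi h1 h2, b3 i hi h1 h2]
  · intro h
    refine ⟨Function.update (Function.update v x (v y)) y (v x), ⟨?_, ?_, ?_⟩, ?_, ?_, ?_⟩
    · simp [h x hx]
    · simp [hxy, h y hy]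
    · intro i hi h1 h2; simp [h1, h2, h i hi]
    · simp [hxy]
    · simp
    · intro i hi h1 h2; simp [h1, h2]

/-! ### weights -/

theorem tw_be_of_iso {b : PM n} {i j : Fin n} (h : ss i * b = b) : tw (tt i j * ss i) b = 1 := by
  unfold tw
  have h1 : ((tt i j * ss i).cok ⊓ b.ker : Submodule (ZMod 2) (Vec n)) =
      Submodule.span (ZMod 2) {(Pi.single i 1 : Vec n)} := by
    ext f
    rw [Submodule.mem_inf, mem_ker, mem_cok, mem_C_b, Submodule.mem_span_singleton]
    constructor
    · rintro ⟨⟨h, -⟩, -⟩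
      refine ⟨f i, ?_⟩
      ext k
      by_cases hk : k = i
      · rw [hk]; simp
      · rw [← h k hk]; simp [hk]
    · rintro ⟨c, rfl⟩
      refine ⟨⟨fun k hk => by simp [hk], rfl⟩, ?_⟩
      rw [← h, mem_C_ss_mul]
      exact ⟨0, b.C.zero_mem, fun k hk => by simp [hk]⟩
  rw [h1, finrank_span_singleton]
  intro h
  have := congrFun h i
  simp at this

theorem tw_ss_tt {b : PM n} {i j : Fin n} (hij : i ≠ j) : tw (ss j) (tt i j * b) = 0 := by
  apply tw_eq_zero
  intro f h1 h2
  have h3 := mem_C_ss.1 (mem_cok.1 h1)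
  have h4 := (mem_C_tt_mul.1 (mem_ker.1 h2)).2
  ext k
  by_cases hk : k = j
  · rw [hk, ← h4, ← h3 i hij]; rfl
  · rw [← h3 k hk]

theorem W_al_mul (x : IG (PM n)) {i j : Fin n} (hij : i ≠ j) : W (al i j * x) = W x := by
  unfold al
  rw [W_io_mul, coe_ai]
  unfold cst
  rw [tw_a_a hij, tw_a_a hij]; simp

theorem W_be_mul {x : IG (PM n)} {i j : Fin n} (hij : i ≠ j) (h : ss i * val x = val x) :
    W (be i j * x) = 2 * W x := by
  unfold be
  rw [W_io_mul, coe_bi]
  unfold cst
  rw [tw_be_of_iso h, tw_b _ hij]; simp [mul_comm]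

/-! ### identities in `IG` -/

theorem Reg.of_val_eq {x y : IG (PM n)} (hx : Reg x) (h : val x * val y = val x) : Reg (x * y) :=
  hx.mul_right (by rw [h])

theorem right_iso {x : IG (PM n)} (hx : Reg x) (hr : rk (val x) + 2 ≤ n) {i j : Fin n} (hij : i ≠ j)
    (h : val x * ss j = val x) : Reg (x * be i j) ∧ rk (val (x * be i j)) = rk (val x) ∧
      x * be i j * al i j * sg j = x := by
  have v1 : val x * (tt i j * ss i) * (ss i * tt i j) * ss j = val x := by
    calc val x * (tt i j * ss i) * (ss i * tt i j) * ss j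
        = val x * (tt i j * (ss i * ss i) * tt i j) * ss j := by simp only [mul_assoc]
      _ = val x * tt i j * ss j := by rw [ss_idem, tst hij]
      _ = val x * ss j * tt i j * ss j := by rw [h]
      _ = val x * (ss j * tt j i * ss j) := by rw [tt_symm i j]; simp only [mul_assoc]
      _ = val x := by rw [sts hij.symm, h]
  have v2 : val x * (tt i j * ss i) * (ss i * tt i j) = val x * tt i j := by
    calc val x * (tt i j * ss i) * (ss i * tt i j)
        = val x * (tt i j * (ss i * ss i) * tt i j) := by simp only [mul_assoc]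
      _ = val x * tt i j := by rw [ss_idem, tst hij]
  have r1 : rk (val x * (tt i j * ss i)) = rk (val x) := by
    apply le_antisymm (rk_mul_le_left _ _)
    conv_lhs => rw [← v1]
    exact (rk_mul_le_left _ _).trans (rk_mul_le_left _ _)
  have g1 : Reg (x * be i j) := hx.mul_io r1
  refine ⟨g1, by rw [map_mul, val_be, r1], ?_⟩
  have v3 : val (x * be i j * al i j * sg j) = val x := by
    rw [map_mul, map_mul, map_mul, val_be, val_al, val_sg, v1]
  apply F3
  · have e : x * be i j * al i j * sg j = x * (be i j * al i j * sg j) := by simp only [mul_assoc]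
    rw [e]
    apply Reg.of_val_eq hx
    rw [← map_mul, ← e, v3]
  · exact hx
  · rw [v3]; exact hr
  · exact v3
  · unfold sg
    rw [W_mul_io, W_al hij (by rw [map_mul, val_be, mul_assoc, mul_assoc, ss_idem]), W_be x hij]
    rw [map_mul, map_mul, val_be, val_al, v2, coe_si, cst_ss_ss]
    have : cst (val x * tt i j) (ss j) = 1 := by
      unfold cst
      rw [tt_symm i j, tw_tt_ss _ hij.symm]; norm_num
    rw [this]; ring

/-- moving a pair of points at an interface -/
theorem slide {x y : IG (PM n)} (hx : Reg x) (hr : rk (val x) + 2 ≤ n) {i j : Fin n} (hij : i ≠ j)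
    (h : val x * ss j = val x) (hy : sg j * y = y) : x * y = x * be i j * (al i j * y) := by
  obtain ⟨_, _, h1⟩ := right_iso hx hr hij h
  calc x * y = (x * be i j * al i j * sg j) * y := by rw [h1]
    _ = x * be i j * al i j * (sg j * y) := by simp only [mul_assoc]
    _ = x * be i j * (al i j * y) := by rw [hy]; simp only [mul_assoc]

/-- absorption at the left end -/
theorem absorb_left {x y : IG (PM n)} (hx : Reg x) (hr : rk (val x) + 2 ≤ n) {i j : Fin n} (hij : i ≠ j)
    (hi : val x * ss i = val x) (hj : val x * ss j = val x) (hy : sg j * y = y) :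
    x * (al i j * y) = x * y := by
  have v1 : val x * (ss i * tt i j) = val x * tt i j := by rw [← mul_assoc, hi]
  have v2 : val (x * al i j * sg j) = val x := by
    rw [map_mul, map_mul, val_al, val_sg, v1]
    calc val x * tt i j * ss j = val x * ss j * tt i j * ss j := by rw [hj]
      _ = val x * (ss j * tt j i * ss j) := by rw [tt_symm i j]; simp only [mul_assoc]
      _ = val x := by rw [sts hij.symm, hj]
  have e0 : x * al i j * sg j = x * (al i j * sg j) := by simp only [mul_assoc]
  have e1 : x * al i j * sg j = x := by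
    apply F3
    · rw [e0]
      apply Reg.of_val_eq hx
      rw [← map_mul, ← e0, v2]
    · exact hx
    · rw [v2]; exact hr
    · exact v2
    · unfold sg
      rw [W_mul_io, W_al hij hi, map_mul, val_al, v1, coe_si, cst_ss_ss]
      have : cst (val x * tt i j) (ss j) = 1 := by
        unfold cst
        rw [tt_symm i j, tw_tt_ss _ hij.symm]; norm_num
      rw [this]; ring
  calc x * (al i j * y) = x * al i j * (sg j * y) := by rw [hy, mul_assoc]
    _ = (x * al i j * sg j) * y := by simp only [mul_assoc]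
    _ = x * y := by rw [e1]

/-- absorption at the right end -/
theorem absorb_right {x b : IG (PM n)} (hb : Reg b) (hr : rk (val b) + 2 ≤ n) {i j : Fin n} (hij : i ≠ j)
    (hi : ss i * val b = val b) (hj : ss j * val b = val b) (hx : x * sg j = x) :
    x * be i j * b = x * b := by
  have v1 : (tt i j * ss i) * val b = tt i j * val b := by rw [mul_assoc, hi]
  have v2 : val (sg j * (be i j * b)) = val b := by
    rw [map_mul, map_mul, val_be, val_sg, v1]
    calc ss j * (tt i j * val b) = ss j * (tt i j * (ss j * val b)) := by rw [hj]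
      _ = (ss j * tt j i * ss j) * val b := by rw [tt_symm i j]; simp only [mul_assoc]
      _ = val b := by rw [sts hij.symm, hj]
  have e1 : sg j * (be i j * b) = b := by
    apply F3
    · rw [← mul_assoc]
      apply reg_mul_left hb
      rw [← map_mul, mul_assoc, v2]
    · exact hb
    · rw [v2]; exact hr
    · exact v2
    · unfold sg
      rw [W_io_mul, W_be_mul hij hi, map_mul, val_be, v1, coe_si, cst_ss_ss]
      have : cst (ss j) (tt i j * val b) = 1 := by
        unfold cst
        rw [tw_ss_tt hij]; norm_num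
      rw [this]; ring
  calc x * be i j * b = (x * sg j) * be i j * b := by rw [hx]
    _ = x * (sg j * (be i j * b)) := by simp only [mul_assoc]
    _ = x * b := by rw [e1]

section Main

variable {x y f : Fin n} (hxy : x ≠ y) (hxf : x ≠ f) (hyf : y ≠ f)

include hxy hxf hyf

theorem W_gam (u : IG (PM n)) : W (u * gam x y f) = W u := by
  unfold gam
  rw [← mul_assoc, ← mul_assoc, W_be _ hyf.symm, W_be _ hxy.symm, W_be _ hxf]

theorem W_alp (u : IG (PM n)) : W (alp x y f * u) = W u := by
  unfold alp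
  rw [mul_assoc, mul_assoc, W_al_mul _ hyf.symm, W_al_mul _ hxy.symm, W_al_mul _ hxf]

theorem eg_gam {J : Set (Fin n)} (hx : x ∈ J) (hy : y ∈ J) (hf : f ∉ J) (hr : rk (Es J) + 2 ≤ n) :
    eg J * gam x y f = alp x y f * eg J ∧ eg J * gam x y f * gam x y f = eg J ∧ Reg (eg J * gam x y f) ∧
      rk (val (eg J * gam x y f)) = rk (Es J) := by
  have hv := Es_gam_eq hxy hxf hyf hx hy hf
  have hvv := Es_gam_gam hxy hxf hyf hx hy hf
  have r1 : rk (Es J * val (gam x y f)) = rk (Es J) := by
    apply le_antisymm (rk_mul_le_left _ _)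
    conv_lhs => rw [← hvv]
    exact rk_mul_le_left _ _
  have g0 : Reg (eg J) := reg_io _
  have g1 : Reg (eg J * gam x y f) := g0.mul_right (by rw [val_eg]; exact r1)
  have g2 : Reg (alp x y f * eg J) := reg_mul_left g0 _ (by rw [val_eg, ← hv]; exact r1)
  have g3 : Reg (eg J * gam x y f * gam x y f) := g1.mul_right (by
    rw [map_mul, val_eg, hvv, r1])
  refine ⟨?_, ?_, g1, by rw [map_mul, val_eg, r1]⟩
  · apply F3 g1 g2
    · rw [map_mul, val_eg, r1]; exact hr
    · rw [map_mul, map_mul, val_eg, hv]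
    · rw [W_gam hxy hxf hyf, W_alp hxy hxf hyf]
  · apply F3 g3 g0
    · rw [map_mul, map_mul, val_eg, hvv]; exact hr
    · rw [map_mul, map_mul, val_eg, hvv]
    · rw [W_gam hxy hxf hyf, W_gam hxy hxf hyf]

/-- moving both exchanges at an interface -/
theorem slide3 {u t : IG (PM n)} (hu : Reg u) (hr : rk (val u) + 2 ≤ n) (h : val u * ss f = val u)
    (ht : sg f * t = t) : u * t = u * gam x y f * (alp x y f * t) := by
  obtain ⟨a1, a2, -⟩ := right_iso hu hr hxf h
  have a3 : val (u * be x f) * ss x = val (u * be x f) := by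
    rw [map_mul, val_be, mul_assoc, mul_assoc, ss_idem]
  obtain ⟨b1, b2, -⟩ := right_iso a1 (by rw [a2]; exact hr) hxy.symm a3
  have b3 : val (u * be x f * be y x) * ss y = val (u * be x f * be y x) := by
    rw [map_mul, val_be, mul_assoc, mul_assoc, ss_idem]
  have s1 := slide hu hr hxf h ht
  have t1 : sg x * (al x f * t) = al x f * t := by rw [← mul_assoc, sg_al]
  have s2 := slide a1 (by rw [a2]; exact hr) hxy.symm a3 t1
  have t2 : sg y * (al y x * (al x f * t)) = al y x * (al x f * t) := by rw [← mul_assoc, sg_al]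
  have s3 := slide b1 (by rw [b2, a2]; exact hr) hyf.symm b3 t2
  rw [s1, s2, s3]
  unfold gam alp
  simp only [mul_assoc]

/-- exchanges pass through interfaces -/
theorem transmit {J K : Set (Fin n)} (hx : x ∈ J) (hy : y ∈ J) (hf : f ∉ J) (hr : rk (Es J) + 2 ≤ n)
    (hf' : f ∉ K) : eg J * alp x y f * eg K = alp x y f * eg J * eg K := by
  obtain ⟨h1, h2, h3, h4⟩ := eg_gam hxy hxf hyf hx hy hf hr
  have h5 : val (eg J * gam x y f) * ss f = val (eg J * gam x y f) := by
    unfold gam
    rw [← mul_assoc, map_mul, val_be, mul_assoc, mul_assoc, ss_idem]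
  have h6 := slide3 hxy hxf hyf h3 (by rw [h4]; exact hr) h5 (sg_eg hf' : sg f * eg K = eg K)
  rw [h2] at h6
  rw [← h1, h6, mul_assoc]

theorem alp_absorb {u t : IG (PM n)} (hu : Reg u) (hr : rk (val u) + 2 ≤ n) (h1 : val u * ss x = val u)
    (h2 : val u * ss y = val u) (h3 : val u * ss f = val u) (ht : sg f * t = t) :
    u * (alp x y f * t) = u * t := by
  unfold alp
  have t1 : sg x * (al x f * t) = al x f * t := by rw [← mul_assoc, sg_al]
  have t2 : sg y * (al y x * (al x f * t)) = al y x * (al x f * t) := by rw [← mul_assoc, sg_al]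
  rw [mul_assoc, mul_assoc, absorb_left hu hr hyf.symm h3 h2 t2, absorb_left hu hr hxy.symm h2 h1 t1,
    absorb_left hu hr hxf h1 h3 ht]

theorem gam_absorb {u b : IG (PM n)} (hb : Reg b) (hr : rk (val b) + 2 ≤ n) (h1 : ss x * val b = val b)
    (h2 : ss y * val b = val b) (h3 : ss f * val b = val b) (hu : u * sg f = u) :
    u * gam x y f * b = u * b := by
  unfold gam
  rw [← mul_assoc, ← mul_assoc]
  rw [absorb_right hb hr hyf.symm h3 h2 (by rw [mul_assoc, be_sg])]
  rw [absorb_right hb hr hxy.symm h2 h1 (by rw [mul_assoc, be_sg])]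
  rw [absorb_right hb hr hxf h1 h3 hu]

end Main

end Pool.Agent.K9h85.RW
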