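import Pool.Agent.K9h85.RW.Pts

set_option autoImplicit false

/-!
# Signs of words and single replacements
-/

namespace Pool.Agent.K9h85.RW

open Pool.Agent.H213 RkMonoid Pool.Agent.H213.PM Module

variable {n : ℕ}

theorem vl_congr {u v : List (Idem (PM n))} (h : mkw u = mkw v) : vl u = vl v := by
  rw [vl_eq, vl_eq, h]

theorem mkw_ctx {l r : List (Idem (PM n))} (h : mkw l = mkw r) (x y : List (Idem (PM n))) :
    mkw (x ++ l ++ y) = mkw (x ++ r ++ y) := by
  rw [mkw_append, mkw_append, mkw_append, mkw_append, h]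

/-- replacements between the two cuts do not change the value of the middle -/
theorem mid_zero_zero {x l y : List (Idem (PM n))} (hx : rk (vl x) = 0) (hy : rk (vl y) = 0) :
    midW (x ++ l ++ y) = restL 1 x ++ l ++ restR y 1 := by
  unfold midW
  rw [List.append_assoc, restL_append_zero x _ 1 (by rw [one_mul]; exact hx), ← List.append_assoc,
    restR_append_zero y _ 1 (by rw [mul_one]; exact hy)]

theorem sg_zero_zero {x l r y : List (Idem (PM n))} (hx : rk (vl x) = 0) (hy : rk (vl y) = 0)
    (h : mkw l = mkw r) : vl (midW (x ++ l ++ y)) = vl (midW (x ++ r ++ y)) := by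
  rw [mid_zero_zero hx hy, mid_zero_zero hx hy, vl_append, vl_append, vl_append, vl_append, vl_congr h]

/-- a factor between contexts of positive rank contains the middle -/
theorem mid_short {x c y : List (Idem (PM n))} (hx : rk (vl x) ≠ 0) (hy : rk (vl y) ≠ 0) :
    (midW (x ++ c ++ y)).length ≤ c.length := by
  unfold midW
  rw [List.append_assoc, restL_append x _ 1 (by rw [one_mul]; exact hx), one_mul]
  obtain ⟨p, hp, -⟩ := restL_suffix (c ++ y) (vl x)
  rw [List.append_eq_append_iff] at hp
  rcases hp with ⟨a', ha, hb⟩ | ⟨c', hc, hd⟩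
  · -- p = c ++ a', y = a' ++ rest
    have h1 : rk (vl (restL (vl x) (c ++ y)) * 1) ≠ 0 := by
      rw [mul_one]
      intro h
      apply hy
      rw [hb, vl_append]
      exact rk_mul_zero_right h _
    have h2 := restR_append (restL (vl x) (c ++ y)) [] 1 h1
    rw [List.nil_append] at h2
    rw [h2, restR_nil]
    simp
  · -- c = p ++ c', rest = c' ++ y
    rw [hd, restR_append y c' 1 (by rw [mul_one]; exact hy)]
    obtain ⟨q, hq⟩ := restR_initial c' (vl y * 1)
    have h1 : (restR c' (vl y * 1)).length ≤ c'.length := by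
      conv_rhs => rw [hq]
      simp
    have h2 : c'.length ≤ c.length := by
      rw [hc]; simp
    omega

/-- two disjoint replacements -/
theorem sg_disjoint (hn : 5 ≤ n) {m : ℕ} {x l1 r1 y l2 r2 z : List (Idem (PM n))} (h1 : mkw l1 = mkw r1)
    (h2 : mkw l2 = mkw r2) (hxy : rk (vl (x ++ l1 ++ y)) = 0)
    (hw : Std hn m (x ++ l1 ++ y ++ (l2 ++ z))) :
    (Sg (vl (midW (x ++ l1 ++ y ++ (l2 ++ z)))) ↔ Sg (vl (midW (x ++ r1 ++ y ++ (l2 ++ z))))) ↔
    (Sg (vl (midW (x ++ l1 ++ y ++ (r2 ++ z)))) ↔ Sg (vl (midW (x ++ r1 ++ y ++ (r2 ++ z))))) := by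
  have e1 : mkw (x ++ l1 ++ y) = mkw (x ++ r1 ++ y) := mkw_ctx h1 x y
  have e2 : mkw (l2 ++ z) = mkw (r2 ++ z) := by rw [mkw_append, mkw_append, h2]
  have hxy' : rk (vl (x ++ r1 ++ y)) = 0 := by rw [← vl_congr e1]; exact hxy
  generalize hU : x ++ l1 ++ y = U at *
  generalize hU' : x ++ r1 ++ y = U' at *
  generalize hV : l2 ++ z = V at *
  generalize hV' : r2 ++ z = V' at *
  have hL := restL_congr e1 1
  have hc1 : ∀ t, restL 1 (U ++ t) = restL 1 U ++ t := fun t =>
    restL_append_zero U t 1 (by rw [one_mul]; exact hxy)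
  have hc2 : ∀ t, restL 1 (U' ++ t) = restL 1 U' ++ t := fun t =>
    restL_append_zero U' t 1 (by rw [one_mul]; exact hxy')
  have hV0 : vl V = vl V' := vl_congr e2
  by_cases hz : rk (vl V) = 0
  · have hz' : rk (vl V') = 0 := by rw [← hV0]; exact hz
    have hR := restR_congr e2 1
    have d1 : ∀ P, restR (P ++ V) 1 = P ++ restR V 1 := fun P =>
      restR_append_zero V P 1 (by rw [mul_one]; exact hz)
    have d2 : ∀ P, restR (P ++ V') 1 = P ++ restR V' 1 := fun P =>
      restR_append_zero V' P 1 (by rw [mul_one]; exact hz')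
    obtain ⟨⟨k, hk⟩, -⟩ := hR
    have hk' : vl (restR V 1) * val k = vl (restR V' 1) := by
      rw [vl_eq, vl_eq, ← map_mul, hk]
    have s1 : midW (U ++ V) = restL 1 U ++ restR V 1 := by unfold midW; rw [hc1, d1]
    have s2 : midW (U' ++ V) = restL 1 U' ++ restR V 1 := by unfold midW; rw [hc2, d1]
    have s3 : midW (U ++ V') = restL 1 U ++ restR V' 1 := by unfold midW; rw [hc1, d2]
    have s4 : midW (U' ++ V') = restL 1 U' ++ restR V' 1 := by unfold midW; rw [hc2, d2]
    have hw' : Std hn m (U ++ V') := by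
      unfold Std at hw ⊢
      rw [← hw, mkw_append, mkw_append, e2]
    have t1 := hw.rk_mid
    have t2 := hw'.rk_mid
    rw [s1, vl_append] at t1
    rw [s3, vl_append, ← hk', ← mul_assoc] at t2
    have hLR : LR (vl (restL 1 U) * vl (restR V 1)) (vl (restL 1 U') * vl (restR V 1)) := by
      rw [vl_eq (restL 1 U), vl_eq (restL 1 U')]
      exact (hL.map val).mul _
    have := sign_lemma t1 hLR t2
    rw [s1, s2, s3, s4, vl_append, vl_append, vl_append, vl_append, ← hk', ← mul_assoc, ← mul_assoc]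
    exact this
  · have hz' : rk (vl V') ≠ 0 := by rw [← hV0]; exact hz
    have d1 : ∀ P, restR (P ++ V) 1 = restR P (vl V * 1) := fun P =>
      restR_append V P 1 (by rw [mul_one]; exact hz)
    have d2 : ∀ P, restR (P ++ V') 1 = restR P (vl V' * 1) := fun P =>
      restR_append V' P 1 (by rw [mul_one]; exact hz')
    have s1 : midW (U ++ V) = midW (U ++ V') := by
      unfold midW; rw [hc1, hc1, d1, d2, hV0]
    have s2 : midW (U' ++ V) = midW (U' ++ V') := by
      unfold midW; rw [hc2, hc2, d1, d2, hV0]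
    rw [s1, s2]

/-- one replacement near the left end, compared with the word without the right end -/
theorem sg_left (hn : 5 ≤ n) {m : ℕ} {x l r y b : List (Idem (PM n))} (h : mkw l = mkw r)
    (hb : mkw b = mkw [iB hn]) (hw : Lft hn m (x ++ l ++ y)) (hx : rk (vl x) ≠ 0) (hl : l.length ≤ 2 * m) :
    (Sg (vl (midW (x ++ l ++ y ++ b))) ↔ Sg (vl (midW (x ++ r ++ y ++ b)))) ↔
    (Sg (vl (restL 1 (x ++ l ++ y))) ↔ Sg (vl (restL 1 (x ++ r ++ y)))) := by
  have hw' : Lft hn m (x ++ r ++ y) := by
    unfold Lft at hw ⊢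
    rw [← hw, mkw_ctx h]
  have hvb : vl b = (iB hn : PM n) := by rw [vl_congr hb, vl_singleton]
  have hrb : rk (vl b) ≠ 0 := by rw [hvb, rkB]; norm_num
  have hlr : vl (x ++ l) = vl (x ++ r) := by rw [vl_append, vl_append, vl_congr h]
  have hs : Std hn m (x ++ l ++ y ++ b) := by
    unfold Std Lft at *
    rw [mkw_append, hw, hb, ← mkw_append]
    rfl
  by_cases hxl : rk (vl (x ++ l)) = 0
  · have hxr : rk (vl (x ++ r)) = 0 := by rw [← hlr]; exact hxl
    have a1 : ∀ t, restL 1 (x ++ l ++ t) = restL 1 (x ++ l) ++ t := fun t =>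
      restL_append_zero (x ++ l) t 1 (by rw [one_mul]; exact hxl)
    have a2 : ∀ t, restL 1 (x ++ r ++ t) = restL 1 (x ++ r) ++ t := fun t =>
      restL_append_zero (x ++ r) t 1 (by rw [one_mul]; exact hxr)
    have hyb : rk (vl (y ++ b)) = 0 := by
      by_contra hyb
      have := mid_short (c := l) hx hyb
      have h3 := hs.length
      rw [List.append_assoc (x ++ l)] at h3
      omega
    have b1 : ∀ P, restR (P ++ (y ++ b)) 1 = P ++ restR (y ++ b) 1 := fun P =>
      restR_append_zero (y ++ b) P 1 (by rw [mul_one]; exact hyb)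
    have b2 : restR (y ++ b) 1 = restR y (vl b) := by
      rw [restR_append b y 1 (by rw [mul_one]; exact hrb), mul_one]
    have s1 : midW (x ++ l ++ y ++ b) = restL 1 (x ++ l) ++ restR y (vl b) := by
      unfold midW; rw [List.append_assoc (x ++ l), a1, b1, b2]
    have s2 : midW (x ++ r ++ y ++ b) = restL 1 (x ++ r) ++ restR y (vl b) := by
      unfold midW; rw [List.append_assoc (x ++ r), a2, b1, b2]
    obtain ⟨q, hq⟩ := restR_initial y (vl b)
    have hvy : vl y = vl (restR y (vl b)) * vl q := by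
      conv_lhs => rw [hq]
      rw [vl_append]
    have t1 := hs.rk_mid
    rw [s1, vl_append] at t1
    have t2 := hw.rk
    rw [a1, vl_append, hvy, ← mul_assoc] at t2
    have e1 : mkw (x ++ l) = mkw (x ++ r) := by rw [mkw_append, mkw_append, h]
    have hLR : LR (vl (restL 1 (x ++ l)) * vl (restR y (vl b))) (vl (restL 1 (x ++ r)) * vl (restR y (vl b))) := by
      rw [vl_eq (restL 1 (x ++ l)), vl_eq (restL 1 (x ++ r))]
      exact ((restL_congr e1 1).map val).mul _
    have := sign_lemma t1 hLR t2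
    rw [s1, s2, a1, a2, vl_append, vl_append, vl_append, vl_append, hvy, ← mul_assoc, ← mul_assoc]
    exact this
  · have hxr : rk (vl (x ++ r)) ≠ 0 := by rw [← hlr]; exact hxl
    have a1 : ∀ t, restL 1 (x ++ l ++ t) = restL (vl (x ++ r)) t := fun t => by
      rw [restL_append (x ++ l) t 1 (by rw [one_mul]; exact hxl), one_mul, hlr]
    have a2 : ∀ t, restL 1 (x ++ r ++ t) = restL (vl (x ++ r)) t := fun t => by
      rw [restL_append (x ++ r) t 1 (by rw [one_mul]; exact hxr), one_mul]
    have s1 : midW (x ++ l ++ y ++ b) = midW (x ++ r ++ y ++ b) := by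
      unfold midW; rw [List.append_assoc (x ++ l), List.append_assoc (x ++ r), a1, a2]
    have s2 : restL 1 (x ++ l ++ y) = restL 1 (x ++ r ++ y) := by rw [a1, a2]
    rw [s1, s2]
    exact ⟨fun _ => Iff.rfl, fun _ => Iff.rfl⟩

/-- a replacement which does not meet the left end -/
theorem sg_left_zero {x l r y : List (Idem (PM n))} (h : mkw l = mkw r) (hx : rk (vl x) = 0) :
    vl (restL 1 (x ++ l ++ y)) = vl (restL 1 (x ++ r ++ y)) := by
  have a : ∀ t, restL 1 (x ++ t) = restL 1 x ++ t := fun t =>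
    restL_append_zero x t 1 (by rw [one_mul]; exact hx)
  rw [List.append_assoc, List.append_assoc, a, a, vl_append, vl_append, vl_append, vl_append, vl_congr h]

/-- the sign changes when the exchange is removed -/
theorem sg_gg (hn : 5 ≤ n) {m : ℕ} {w g : List (Idem (PM n))} (hw : Lft hn m w) (hg : mkw g = gg hn) :
    Sg (vl (restL 1 w)) ↔ ¬ Sg (vl (restL 1 (w ++ g))) := by
  rw [restL_append_zero w g 1 (by rw [one_mul]; exact hw.rk_zero), vl_append, vl_eq g, hg]
  apply sg_flip hn
  have := hw.lr.map val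
  rw [← vl_eq, ← vl_eq, vl_lC] at this
  exact this

end Pool.Agent.K9h85.RW
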