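import Pool.Agent.K9h85.RW.Cut
import Pool.Agent.helper213_IG.Gens

set_option autoImplicit false

/-!
# The sign of a partition of rank two
-/

namespace Pool.Agent.K9h85.RW

open Pool.Agent.H213 RkMonoid Pool.Agent.H213.PM Module

variable {n : ℕ}

theorem tb_iff {t : PM n} {i j : Fin n} : tb t i j ↔ ∀ f g, (f, g) ∈ t.C → f i = g j := by
  unfold tb
  rw [r_iff]
  constructor
  · intro h f g hfg
    simpa using h _ hfg
  · rintro h ⟨f, g⟩ hfg
    simpa using h f g hfg

theorem bt_iff' {t : PM n} {i j : Fin n} : bt t i j ↔ ∀ f g, (f, g) ∈ t.C → g i = g j := by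
  unfold bt
  rw [r_iff]
  constructor
  · intro h f g hfg
    simpa using h _ hfg
  · rintro h ⟨f, g⟩ hfg
    simpa using h f g hfg

/-- marked points of the upper row -/
theorem topm_iff {t : PM n} {i : Fin n} : (∃ j, tb t i j) ↔ ∀ f ∈ t.ker, f i = 0 := by
  classical
  constructor
  · rintro ⟨j, hj⟩ f hf
    have := tb_iff.1 hj f 0 (mem_ker.1 hf)
    simpa using this
  · intro h
    by_contra hcon
    push Not at hcon
    have h1 := ind_mem t (false, i)
    have h2 : ind t (false, i) true = 0 := by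
      ext j
      have : ¬ t.r (false, i) (true, j) := hcon j
      simp [ind, this]
    rw [h2] at h1
    have h3 := h _ (mem_ker.2 h1)
    have h4 : t.r (false, i) (false, i) := t.eqv.refl _
    simp [ind, h4] at h3

/-- marked points of the lower row -/
theorem botm_iff {t : PM n} {j : Fin n} : mkd t j ↔ ∀ g ∈ t.cok, g j = 0 := by
  classical
  constructor
  · rintro ⟨i, hi⟩ g hg
    have := tb_iff.1 hi 0 g (mem_cok.1 hg)
    simpa using this.symm
  · intro h
    by_contra hcon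
    unfold mkd at hcon
    push Not at hcon
    have h1 := ind_mem t (true, j)
    have h2 : ind t (true, j) false = 0 := by
      ext i
      have : ¬ t.r (true, j) (false, i) := fun h => hcon i (t.eqv.symm h)
      simp [ind, this]
    rw [h2] at h1
    have h3 := h _ (mem_cok.2 h1)
    have h4 : t.r (true, j) (true, j) := t.eqv.refl _
    simp [ind, h4] at h3

theorem LR.cok {t t1 : PM n} (h : LR t t1) : t.cok = t1.cok := by
  obtain ⟨⟨a, ha⟩, ⟨b, hb⟩⟩ := h
  apply le_antisymm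
  · rw [← ha]; exact cok_le_mul _ _
  · rw [← hb]; exact cok_le_mul _ _

theorem LR.mkd {t t1 : PM n} (h : LR t t1) (j : Fin n) : mkd t j ↔ mkd t1 j := by
  rw [botm_iff, botm_iff, h.cok]

theorem LR.bt {t t1 : PM n} (h : LR t t1) (i j : Fin n) : bt t i j ↔ bt t1 i j := by
  obtain ⟨⟨a, ha⟩, ⟨b, hb⟩⟩ := h
  rw [bt_iff, bt_iff]
  constructor
  · intro h; rw [← ha, mul_assoc, h]
  · intro h; rw [← hb, mul_assoc, h]

theorem exists_tb_of_rk {t : PM n} (h : rk t ≠ 0) : ∃ i j, tb t i j := by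
  by_contra hcon
  push Not at hcon
  apply h
  have h1 : t.dom ≤ t.ker := by
    intro f hf
    obtain ⟨g, hg⟩ := mem_dom.1 hf
    rw [mem_ker, mem_C]
    rintro ⟨b1, i1⟩ ⟨b2, i2⟩ hr
    have h2 := hg _ _ hr
    cases b1 <;> cases b2
    · simpa using h2
    · exact absurd hr (hcon i1 i2)
    · exact absurd (t.eqv.symm hr) (hcon i2 i1)
    · simp
  have h2 := Submodule.finrank_mono h1
  show t.rank = 0
  unfold rank
  omega

/-- a partition of rank two has two transversal blocks -/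
theorem two_classes {t : PM n} (h : rk t = 2) {j1 j2 j3 : Fin n} (h1 : mkd t j1) (h2 : mkd t j2)
    (h3 : mkd t j3) : bt t j1 j2 ∨ bt t j1 j3 ∨ bt t j2 j3 := by
  classical
  by_contra hcon
  push Not at hcon
  obtain ⟨n12, n13, n23⟩ := hcon
  obtain ⟨i1, e1⟩ := h1
  obtain ⟨i2, e2⟩ := h2
  obtain ⟨i3, e3⟩ := h3
  let J : Fin 3 → Fin n := ![j1, j2, j3]
  let I : Fin 3 → Fin n := ![i1, i2, i3]
  have hIJ : ∀ k, tb t (I k) (J k) := by
    intro k
    fin_cases k
    · exact e1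
    · exact e2
    · exact e3
  have hJ : ∀ k l, k ≠ l → ¬ bt t (J k) (J l) := by
    intro k l hkl
    fin_cases k <;> fin_cases l <;> first | exact absurd rfl hkl | skip
    · exact n12
    · exact n13
    · exact fun h => n12 (bt_symm h)
    · exact n23
    · exact fun h => n13 (bt_symm h)
    · exact fun h => n23 (bt_symm h)
  let L : t.dom →ₗ[ZMod 2] (Fin 3 → ZMod 2) :=
    { toFun := fun f k => f.1 (I k)
      map_add' := fun _ _ => rfl
      map_smul' := fun _ _ => rfl }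
  have hsurj : Function.Surjective L := by
    have hb : ∀ k, ∃ f : t.dom, L f = Pi.single k 1 := by
      intro k
      refine ⟨⟨ind t (true, J k) false, mem_dom.2 ⟨_, ind_mem t _⟩⟩, ?_⟩
      ext l
      show ind t (true, J k) false (I l) = _
      by_cases hkl : l = k
      · subst hkl
        have : t.r (true, J l) (false, I l) := t.eqv.symm (hIJ l)
        simp [ind, this]
      · have : ¬ t.r (true, J k) (false, I l) := by
          intro hr
          exact hJ k l (fun h => hkl h.symm) (t.eqv.trans hr (hIJ l))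
        simp [ind, this, hkl]
    choose F hF using hb
    intro v
    refine ⟨∑ k, v k • F k, ?_⟩
    rw [map_sum]
    simp only [map_smul, hF]
    ext l
    simp [Finset.sum_apply, Pi.single_apply]
  have h5 := LinearMap.finrank_range_add_finrank_ker L
  rw [LinearMap.range_eq_top.2 hsurj, finrank_top, Module.finrank_fin_fun] at h5
  have h6 : finrank (ZMod 2) t.ker ≤ finrank (ZMod 2) (LinearMap.ker L) := by
    let G : t.ker →ₗ[ZMod 2] LinearMap.ker L :=
      { toFun := fun f => ⟨⟨f.1, ker_le_dom t f.2⟩, by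
          rw [LinearMap.mem_ker]
          ext k
          exact topm_iff.1 ⟨_, hIJ k⟩ f.1 f.2⟩
        map_add' := fun _ _ => rfl
        map_smul' := fun _ _ => rfl }
    apply LinearMap.finrank_le_finrank_of_injective (f := G)
    intro a b hab
    apply Subtype.ext
    have := congrArg (fun z => z.1.1) hab
    exact this
  have h7 : t.rank = 2 := h
  unfold rank at h7
  omega

/-- the sign: the least marked upper point belongs to the block of the least marked lower point -/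
def Sg (t : PM n) : Prop :=
  ∃ i j, IsLeast {i | ∃ j, tb t i j} i ∧ IsLeast {j | mkd t j} j ∧ tb t i j

theorem sg_iff {t : PM n} {i j : Fin n} (hi : IsLeast {i | ∃ j, tb t i j} i) (hj : IsLeast {j | mkd t j} j) :
    Sg t ↔ tb t i j := by
  constructor
  · rintro ⟨i', j', h1, h2, h3⟩
    rw [hi.unique h1, hj.unique h2]
    exact h3
  · intro h
    exact ⟨i, j, hi, hj, h⟩

theorem exists_isLeast {s : Set (Fin n)} (h : s.Nonempty) : ∃ i, IsLeast s i := by
  classical
  obtain ⟨i, hi, hmin⟩ := Set.Finite.exists_minimal (Set.toFinite s) h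
  refine ⟨i, hi, ?_⟩
  intro j hj
  rcases le_total i j with h1 | h1
  · exact h1
  · exact hmin hj h1

theorem sign_lemma {t t1 κ : PM n} (hr : rk t = 2) (h : LR t t1) (hr' : rk (t * κ) = 2) :
    (Sg t ↔ Sg t1) ↔ (Sg (t * κ) ↔ Sg (t1 * κ)) := by
  have hr1 : rk t1 = 2 := by rw [← h.rk]; exact hr
  have h' : LR (t * κ) (t1 * κ) := h.mul κ
  have hr1' : rk (t1 * κ) = 2 := by rw [← h'.rk]; exact hr'
  -- equality of kernels
  have hk := (rank_mul_eq_left_iff t κ).1 (by
    have e1 : (t * κ).rank = 2 := hr'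
    have e2 : t.rank = 2 := hr
    rw [e1, e2])
  have hk1 := (rank_mul_eq_left_iff t1 κ).1 (by
    have e1 : (t1 * κ).rank = 2 := hr1'
    have e2 : t1.rank = 2 := hr1
    rw [e1, e2])
  -- least points
  obtain ⟨a1, b1, hab1⟩ := exists_tb_of_rk (t := t) (by omega)
  obtain ⟨a2, b2, hab2⟩ := exists_tb_of_rk (t := t1) (by omega)
  obtain ⟨a3, b3, hab3⟩ := exists_tb_of_rk (t := t * κ) (by omega)
  obtain ⟨i0, hi0⟩ := exists_isLeast (s := {i | ∃ j, tb t i j}) ⟨a1, b1, hab1⟩
  obtain ⟨j0, hj0⟩ := exists_isLeast (s := {j | mkd t j}) ⟨b1, a1, hab1⟩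
  obtain ⟨i1, hi1⟩ := exists_isLeast (s := {i | ∃ j, tb t1 i j}) ⟨a2, b2, hab2⟩
  obtain ⟨j1, hj1⟩ := exists_isLeast (s := {j | mkd (t * κ) j}) ⟨b3, a3, hab3⟩
  have hj0' : IsLeast {j | mkd t1 j} j0 := by
    have : {j | mkd t1 j} = {j | mkd t j} := by
      ext j; exact (h.mkd j).symm
    rw [this]; exact hj0
  have hj1' : IsLeast {j | mkd (t1 * κ) j} j1 := by
    have : {j | mkd (t1 * κ) j} = {j | mkd (t * κ) j} := by
      ext j; exact (h'.mkd j).symm
    rw [this]; exact hj1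
  have hi0' : IsLeast {i | ∃ j, tb (t * κ) i j} i0 := by
    have : {i | ∃ j, tb (t * κ) i j} = {i | ∃ j, tb t i j} := by
      ext i
      simp only [Set.mem_setOf_eq]
      rw [topm_iff, topm_iff, hk.2]
    rw [this]; exact hi0
  have hi1' : IsLeast {i | ∃ j, tb (t1 * κ) i j} i1 := by
    have : {i | ∃ j, tb (t1 * κ) i j} = {i | ∃ j, tb t1 i j} := by
      ext i
      simp only [Set.mem_setOf_eq]
      rw [topm_iff, topm_iff, hk1.2]
    rw [this]; exact hi1
  rw [sg_iff hi0 hj0, sg_iff hi1 hj0', sg_iff hi0' hj1, sg_iff hi1' hj1']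
  obtain ⟨j2, hj2⟩ := hi0.1
  obtain ⟨j3, hj3⟩ := hi1.1
  obtain ⟨k2, hk2⟩ := hi0'.1
  obtain ⟨k3, hk3⟩ := hi1'.1
  -- general comparison
  have key : ∀ (s s1 : PM n) (a b : Fin n) (x x2 x3 : Fin n), rk s = 2 → LR s s1 → tb s a x2 → tb s1 b x3 →
      mkd s x → ((tb s a x ↔ tb s1 b x) ↔ bt s x2 x3) := by
    intro s s1 a b x x2 x3 hs hss h1 h2 h3
    have e1 : tb s a x ↔ bt s x2 x := ⟨fun h => tb_tb h1 h, fun h => tb_bt h1 h⟩
    have e2 : tb s1 b x ↔ bt s x3 x := by
      rw [hss.bt]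
      exact ⟨fun h => tb_tb h2 h, fun h => tb_bt h2 h⟩
    rw [e1, e2]
    have m2 : mkd s x2 := ⟨_, h1⟩
    have m3 : mkd s x3 := (hss.mkd x3).2 ⟨_, h2⟩
    constructor
    · intro h4
      rcases two_classes hs m2 m3 h3 with h5 | h5 | h5
      · exact h5
      · exact bt_trans h5 (bt_symm (h4.1 h5))
      · exact bt_trans (h4.2 h5) (bt_symm h5)
    · intro h4
      exact ⟨fun h5 => bt_trans (bt_symm h4) h5, fun h5 => bt_trans h4 h5⟩
  rw [key t t1 i0 i1 j0 j2 j3 hr h hj2 hj3 hj0.1, key (t * κ) (t1 * κ) i0 i1 j1 k2 k3 hr' h' hk2 hk3 hj1.1]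
  obtain ⟨⟨z, hz⟩, ⟨z', hz'⟩⟩ := h
  rw [bt_iff', bt_iff']
  constructor
  · intro hB f g hfg
    obtain ⟨m, hm1, hm2⟩ := mem_C_mul.1 hfg
    have c1 : f i0 = m j2 := tb_iff.1 hj2 f m hm1
    have c2 : f i0 = g k2 := tb_iff.1 hk2 f g hfg
    have hm3 := hm1
    rw [← hz'] at hm3
    obtain ⟨f1, _, hf1⟩ := mem_C_mul.1 hm3
    have c3 : f1 i1 = m j3 := tb_iff.1 hj3 f1 m hf1
    have c4 : f1 i1 = g k3 := tb_iff.1 hk3 f1 g (mem_C_mul.2 ⟨m, hf1, hm2⟩)
    rw [← c2, c1, hB f m hm1, ← c3, c4]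
  · intro hB f g hfg
    have hf : f ∈ (t * κ).dom := by rw [hk.1]; exact mem_dom.2 ⟨g, hfg⟩
    obtain ⟨g', hg'⟩ := mem_dom.1 hf
    obtain ⟨m, hm1, hm2⟩ := mem_C_mul.1 hg'
    have c1 : f i0 = m j2 := tb_iff.1 hj2 f m hm1
    have c2 : f i0 = g' k2 := tb_iff.1 hk2 f g' hg'
    have hm3 := hm1
    rw [← hz'] at hm3
    obtain ⟨f1, _, hf1⟩ := mem_C_mul.1 hm3
    have c3 : f1 i1 = m j3 := tb_iff.1 hj3 f1 m hf1
    have c4 : f1 i1 = g' k3 := tb_iff.1 hk3 f1 g' (mem_C_mul.2 ⟨m, hf1, hm2⟩)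
    have c5 : m j2 = m j3 := by rw [← c1, c2, hB f g' hg', ← c4, c3]
    have c6 : f i0 = g j2 := tb_iff.1 hj2 f g hfg
    -- the difference
    have h8 : ((0 : Vec n), g - m) ∈ t.C := by
      have := t.C.sub_mem hfg hm1
      simpa using this
    have h9 : (g - m) j3 = 0 := by
      have h10 : mkd t j3 := by
        have h11 : LR t t1 := ⟨⟨z, hz⟩, ⟨z', hz'⟩⟩
        exact (h11.mkd j3).2 ⟨_, hj3⟩
      exact botm_iff.1 h10 _ (mem_cok.2 h8)
    have h10 : g j3 = m j3 := by
      have : g j3 - m j3 = 0 := h9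
      exact sub_eq_zero.1 this
    rw [h10, ← c5, ← c1, c6]

end Pool.Agent.K9h85.RW
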