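import Pool.Agent.K9h85.RW.Ids
import Pool.Agent.K9h85.RW.Sign
import Pool.Agent.K9h85.RW.Cov

set_option autoImplicit false

/-!
# The elements `a (e₁ e₂) ^ m b`
-/

namespace Pool.Agent.K9h85.RW

open Pool.Agent.H213 RkMonoid Pool.Agent.H213.PM Module

variable {n : ℕ}

theorem rk_Es (A : Set (Fin n)) : rk (Es A) = Nat.card A := by
  apply le_antisymm _ (card_le_rk_Es A)
  classical
  have := Fintype.ofFinite A
  let L : Vec n →ₗ[ZMod 2] (A → ZMod 2) := LinearMap.funLeft (ZMod 2) (ZMod 2) (Subtype.val : A → Fin n)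
  have h2 : (Es A).ker = LinearMap.ker L := by
    ext f
    rw [mem_ker_Es, LinearMap.mem_ker]
    constructor
    · intro h
      ext k
      exact h k k.2
    · intro h i hi
      exact congrFun h ⟨i, hi⟩
  show (Es A).rank ≤ _
  unfold rank
  rw [h2]
  have h3 := LinearMap.finrank_range_add_finrank_ker L
  have h4 := Submodule.finrank_le (LinearMap.range L)
  have h5 : finrank (ZMod 2) (A → ZMod 2) = Nat.card A := by
    rw [Module.finrank_fintype_fun_eq_card, Nat.card_eq_fintype_card]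
  have h6 := Submodule.finrank_le (Es A).dom
  omega

theorem rk_Es_finset (A : Finset (Fin n)) : rk (Es (A : Set (Fin n))) = A.card := by
  rw [rk_Es]; simp

section
variable (hn : 5 ≤ n)

/-- the first five points -/
def pt (k : Fin 5) : Fin n := Fin.castLE hn k

theorem pt_inj {k l : Fin 5} : pt hn k = pt hn l ↔ k = l := by
  unfold pt
  exact (Fin.castLE_injective hn).eq_iff

/-- the points of `e₁` -/
def fE1 : Finset (Fin n) := {pt hn 0, pt hn 1, pt hn 2}
/-- the points of `e₂` -/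
def fE2 : Finset (Fin n) := {pt hn 0, pt hn 1, pt hn 3}
/-- the point of `a` -/
def fA : Finset (Fin n) := {pt hn 3}
/-- the point of `b` -/
def fB : Finset (Fin n) := {pt hn 2}
/-- the common points of `e₁` and `e₂` -/
def fD : Finset (Fin n) := {pt hn 0, pt hn 1}

/-- the idempotent `e₁` -/
def i1 : Idem (PM n) := ei (fE1 hn : Set (Fin n))
/-- the idempotent `e₂` -/
def i2 : Idem (PM n) := ei (fE2 hn : Set (Fin n))
/-- the idempotent `a` -/
def iA : Idem (PM n) := ei (fA hn : Set (Fin n))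
/-- the idempotent `b` -/
def iB : Idem (PM n) := ei (fB hn : Set (Fin n))

theorem Es_mul_finset (A B : Finset (Fin n)) : Es (A : Set (Fin n)) * Es (B : Set (Fin n)) = Es ((A ∩ B : Finset (Fin n)) : Set (Fin n)) := by
  rw [Es_mul, Finset.coe_inter]

theorem inter12 : fE1 hn ∩ fE2 hn = fD hn := by
  ext i
  simp only [fE1, fE2, fD, Finset.mem_inter, Finset.mem_insert, Finset.mem_singleton]
  constructor
  · rintro ⟨h1 | h1 | h1, h2⟩
    · exact Or.inl h1
    · exact Or.inr h1
    · rw [h1, pt_inj, pt_inj, pt_inj] at h2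
      exact absurd h2 (by decide)
  · rintro (h | h)
    · exact ⟨Or.inl h, Or.inl h⟩
    · exact ⟨Or.inr (Or.inl h), Or.inr (Or.inl h)⟩

theorem inter21 : fE2 hn ∩ fE1 hn = fD hn := by rw [Finset.inter_comm, inter12]

theorem interD1 : fD hn ∩ fE1 hn = fD hn := by
  rw [Finset.inter_eq_left]
  intro i hi
  simp only [fE1, fD, Finset.mem_insert, Finset.mem_singleton] at hi ⊢
  tauto

theorem interD2 : fD hn ∩ fE2 hn = fD hn := by
  rw [Finset.inter_eq_left]
  intro i hi
  simp only [fE2, fD, Finset.mem_insert, Finset.mem_singleton] at hi ⊢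
  tauto

theorem interA1 : fA hn ∩ fE1 hn = ∅ := by
  ext i
  simp only [fE1, fA, Finset.mem_inter, Finset.mem_insert, Finset.mem_singleton]
  constructor
  · rintro ⟨h1, h2⟩
    rw [h1, pt_inj, pt_inj, pt_inj] at h2
    exact absurd h2 (by decide)
  · intro h; exact absurd h (by simp)

theorem inter2B : fE2 hn ∩ fB hn = ∅ := by
  ext i
  simp only [fE2, fB, Finset.mem_inter, Finset.mem_insert, Finset.mem_singleton]
  constructor
  · rintro ⟨h1, h2⟩
    rw [h2, pt_inj, pt_inj, pt_inj] at h1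
    exact absurd h1 (by decide)
  · intro h; exact absurd h (by simp)

theorem card1 : (fE1 hn).card = 3 := by
  unfold fE1
  rw [Finset.card_insert_of_notMem, Finset.card_insert_of_notMem, Finset.card_singleton]
  · rw [Finset.mem_singleton, pt_inj]; decide
  · rw [Finset.mem_insert, Finset.mem_singleton, pt_inj, pt_inj]; decide

theorem card2 : (fE2 hn).card = 3 := by
  unfold fE2
  rw [Finset.card_insert_of_notMem, Finset.card_insert_of_notMem, Finset.card_singleton]
  · rw [Finset.mem_singleton, pt_inj]; decide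
  · rw [Finset.mem_insert, Finset.mem_singleton, pt_inj, pt_inj]; decide

theorem cardD : (fD hn).card = 2 := by
  unfold fD
  rw [Finset.card_insert_of_notMem, Finset.card_singleton]
  rw [Finset.mem_singleton, pt_inj]; decide

theorem rk1 : rk (i1 hn : PM n) = 3 := by
  show rk (Es _) = 3
  rw [rk_Es_finset, card1]

theorem rk2 : rk (i2 hn : PM n) = 3 := by
  show rk (Es _) = 3
  rw [rk_Es_finset, card2]

theorem rkA : rk (iA hn : PM n) = 1 := by
  show rk (Es _) = 1
  rw [rk_Es_finset]; rfl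

theorem rkB : rk (iB hn : PM n) = 1 := by
  show rk (Es _) = 1
  rw [rk_Es_finset]; rfl

theorem rkD : rk (Es (fD hn : Set (Fin n))) = 2 := by
  rw [rk_Es_finset, cardD]

theorem rkA1 : rk ((iA hn : PM n) * (i1 hn : PM n)) = 0 := by
  show rk (Es _ * Es _) = 0
  rw [Es_mul_finset, interA1, rk_Es_finset]; rfl

theorem rk2B : rk ((i2 hn : PM n) * (iB hn : PM n)) = 0 := by
  show rk (Es _ * Es _) = 0
  rw [Es_mul_finset, inter2B, rk_Es_finset]; rfl

include hn in
theorem three_le_one : 3 ≤ rk (1 : PM n) := by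
  have h := rk_mul_le_right (i1 hn : PM n) (1 : PM n)
  rw [mul_one, rk1] at h
  exact h

/-! ### the standard words -/

/-- the word `(e₁ e₂) ^ m` -/
def lC : ℕ → List (Idem (PM n))
  | 0 => []
  | m + 1 => i1 hn :: i2 hn :: lC m

theorem lC_zero : lC hn 0 = [] := rfl

theorem lC_succ (m : ℕ) : lC hn (m + 1) = i1 hn :: i2 hn :: lC hn m := rfl

theorem lC_succ' (m : ℕ) : lC hn (m + 1) = lC hn m ++ [i1 hn, i2 hn] := by
  induction m with
  | zero => rfl
  | succ m ih =>
    calc lC hn (m + 1 + 1) = i1 hn :: i2 hn :: lC hn (m + 1) := rfl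
      _ = i1 hn :: i2 hn :: (lC hn m ++ [i1 hn, i2 hn]) := by rw [ih]
      _ = lC hn (m + 1) ++ [i1 hn, i2 hn] := rfl

theorem lC_length (m : ℕ) : (lC hn m).length = 2 * m := by
  induction m with
  | zero => rfl
  | succ m ih => rw [lC_succ, List.length_cons, List.length_cons, ih]; omega

theorem mkw_lC (m : ℕ) : mkw (lC hn m) = (io (i1 hn) * io (i2 hn)) ^ m := by
  induction m with
  | zero => rfl
  | succ m ih => rw [lC_succ, mkw_cons, mkw_cons, ih, pow_succ', mul_assoc]

theorem vl_lC (m : ℕ) : vl (lC hn (m + 1)) = Es (fD hn : Set (Fin n)) := by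
  induction m with
  | zero =>
    rw [lC_succ, lC_zero, vl_cons, vl_cons, vl_nil, mul_one]
    show Es _ * Es _ = _
    rw [Es_mul_finset, inter12]
  | succ m ih =>
    rw [lC_succ', vl_append, ih, vl_cons, vl_cons, vl_nil, mul_one]
    show Es _ * (Es _ * Es _) = _
    rw [Es_mul_finset, inter12, Es_mul_finset, Finset.inter_self]

theorem mem_lC {m : ℕ} {e : Idem (PM n)} (h : e ∈ lC hn m) : e = i1 hn ∨ e = i2 hn := by
  induction m with
  | zero => exact absurd h (by simp [lC_zero])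
  | succ m ih =>
    rw [lC_succ, List.mem_cons, List.mem_cons] at h
    rcases h with h | h | h
    · exact Or.inl h
    · exact Or.inr h
    · exact ih h

theorem chain_lC (m : ℕ) : List.IsChain (fun a b : Idem (PM n) => rk ((a : PM n) * (b : PM n)) < 3) (lC hn m) := by
  have h12 : rk ((i1 hn : PM n) * (i2 hn : PM n)) < 3 := by
    show rk (Es _ * Es _) < 3
    rw [Es_mul_finset, inter12, rkD]; norm_num
  have h21 : rk ((i2 hn : PM n) * (i1 hn : PM n)) < 3 := by
    show rk (Es _ * Es _) < 3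
    rw [Es_mul_finset, inter21, rkD]; norm_num
  induction m with
  | zero => exact List.isChain_nil
  | succ m ih =>
    rw [lC_succ]
    cases m with
    | zero =>
      rw [lC_zero, List.isChain_cons_cons]
      exact ⟨h12, List.isChain_singleton _⟩
    | succ m =>
      rw [lC_succ] at ih ⊢
      rw [List.isChain_cons_cons, List.isChain_cons_cons]
      exact ⟨h12, h21, ih⟩

theorem restR_lC (m : ℕ) : restR (lC hn (m + 1) ++ [iB hn]) 1 = lC hn (m + 1) := by
  rw [restR_concat (by rw [mul_one, rkB]; norm_num), mul_one, lC_succ']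
  have e : lC hn m ++ [i1 hn, i2 hn] = (lC hn m ++ [i1 hn]) ++ [i2 hn] := by simp
  rw [e, restR_concat_zero (rk2B hn)]

theorem restL_lC (m : ℕ) (t : List (Idem (PM n))) : restL 1 (iA hn :: (lC hn (m + 1) ++ t)) = lC hn (m + 1) ++ t := by
  rw [restL_cons (by rw [one_mul, rkA]; norm_num), one_mul, lC_succ, List.cons_append,
    restL_cons_zero (rkA1 hn)]

theorem rk_lC (m : ℕ) : rk (vl (lC hn (m + 1))) = 2 := by rw [vl_lC, rkD]

theorem rk_lCB (m : ℕ) : rk (vl (lC hn (m + 1) ++ [iB hn])) = 0 := by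
  rw [lC_succ', vl_append, vl_append, vl_cons, vl_cons, vl_nil, vl_singleton, mul_one, mul_assoc, mul_assoc]
  exact rk_mul_zero_right (rk_mul_zero_right (rk2B hn) _) _

/-- the part of a word between the two cuts -/
noncomputable def midW (w : List (Idem (PM n))) : List (Idem (PM n)) := restR (restL 1 w) 1

/-- words for `a (e₁ e₂) ^ m b` -/
def Std (m : ℕ) (w : List (Idem (PM n))) : Prop := mkw w = mkw (iA hn :: (lC hn (m + 1) ++ [iB hn]))

/-- words for `a (e₁ e₂) ^ m` -/
def Lft (m : ℕ) (w : List (Idem (PM n))) : Prop := mkw w = mkw (iA hn :: lC hn (m + 1))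

theorem Lft.lr {m : ℕ} {w : List (Idem (PM n))} (h : Lft hn m w) : LR (mkw (restL 1 w)) (mkw (lC hn (m + 1))) := by
  have h1 := restL_congr h 1
  have h2 := restL_lC hn m []
  rw [List.append_nil] at h2
  rw [h2] at h1
  exact h1

theorem Lft.rk {m : ℕ} {w : List (Idem (PM n))} (h : Lft hn m w) : rk (vl (restL 1 w)) = 2 := by
  have h1 := (h.lr.map val).rk
  rw [← vl_eq, ← vl_eq, rk_lC] at h1
  exact h1

theorem Lft.rk_zero {m : ℕ} {w : List (Idem (PM n))} (h : Lft hn m w) : RkMonoid.rk (vl w) = 0 := by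
  rw [vl_eq, h, ← vl_eq, lC_succ, vl_cons, vl_cons, ← mul_assoc]
  exact rk_mul_zero_left (rkA1 hn) _

theorem Std.lr {m : ℕ} {w : List (Idem (PM n))} (h : Std hn m w) :
    LR (mkw (restL 1 w)) (mkw (lC hn (m + 1) ++ [iB hn])) := by
  have h1 := restL_congr h 1
  rw [restL_lC] at h1
  exact h1

theorem Std.rr {m : ℕ} {w : List (Idem (PM n))} (h : Std hn m w) :
    ∃ z z' k k' : List (Idem (PM n)), mkw (z ++ midW w ++ k) = mkw (lC hn (m + 1)) ∧
      mkw (z' ++ lC hn (m + 1) ++ k') = mkw (midW w) := by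
  have h0 := h.lr
  have hr : RkMonoid.rk (vl (restL 1 w)) = 0 := by
    have := (h0.map val).rk
    rw [← vl_eq, ← vl_eq, rk_lCB] at this
    exact this
  obtain ⟨⟨z0, hz⟩, ⟨z0', hz'⟩⟩ := h0
  obtain ⟨z, rfl⟩ := mkw_surj z0
  obtain ⟨z', rfl⟩ := mkw_surj z0'
  rw [← mkw_append] at hz hz'
  have e1 := restR_congr hz 1
  have e2 := restR_congr hz' 1
  rw [restR_append_zero _ _ _ (by rw [mul_one]; exact hr), restR_lC] at e1
  rw [restR_append_zero _ _ _ (by rw [mul_one]; exact rk_lCB hn m), restR_lC] at e2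
  obtain ⟨⟨k0, hk⟩, -⟩ := e1
  obtain ⟨⟨k0', hk'⟩, -⟩ := e2
  obtain ⟨k, rfl⟩ := mkw_surj k0
  obtain ⟨k', rfl⟩ := mkw_surj k0'
  rw [← mkw_append] at hk hk'
  exact ⟨z, z', k, k', hk, hk'⟩

theorem Std.rk_mid {m : ℕ} {w : List (Idem (PM n))} (h : Std hn m w) : rk (vl (midW w)) = 2 := by
  obtain ⟨z, z', k, k', h1, h2⟩ := h.rr
  apply le_antisymm
  · rw [vl_eq (midW w), ← h2, ← vl_eq, ← rk_lC hn m]
    exact (rk_vl_append_left _ _).trans (rk_vl_append_right _ _)
  · rw [← rk_lC hn m, vl_eq (lC hn (m + 1)), ← h1, ← vl_eq]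
    exact (rk_vl_append_left _ _).trans (rk_vl_append_right _ _)

theorem Std.letters {m : ℕ} {w : List (Idem (PM n))} (h : Std hn m w) : ∀ e ∈ midW w, 3 ≤ rk (e : PM n) := by
  intro e he
  obtain ⟨z, z', k, k', h1, h2⟩ := h.rr
  by_contra hcon
  have h3 := rk_vl_le he
  rw [h.rk_mid] at h3
  have h4 : RegW (z ++ midW w ++ k) := by
    refine ⟨e, by simp [he], ?_⟩
    rw [vl_eq, h1, ← vl_eq, rk_lC]
    omega
  obtain ⟨e', he', h5⟩ := (regW_congr h1).1 h4
  rw [rk_lC] at h5
  rcases mem_lC hn he' with rfl | rfl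
  · rw [rk1] at h5; omega
  · rw [rk2] at h5; omega

theorem Std.length {m : ℕ} {w : List (Idem (PM n))} (h : Std hn m w) : 2 * m < (midW w).length := by
  obtain ⟨z, z', k, k', h1, h2⟩ := h.rr
  have h3 := cov_length h.letters
  rw [← cov_congr h2] at h3
  rw [List.append_assoc] at h3
  have h4 := Cov.initial _ _ _ h3.suffix (three_le_one hn)
  have h5 := cov_ge (chain_lC hn (m + 1)) _ h4
  rw [lC_length] at h5
  omega

end

end Pool.Agent.K9h85.RW
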