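import Mathlib.Logic.Relation
import Mathlib.Data.Bool.Basic
import Mathlib.Order.WellFounded

set_option autoImplicit false

/-!
# Newman's lemma with labels

A terminating relation whose steps carry labels in the group with two elements, such that every local
divergence can be closed with equal sums of labels, has a potential.
-/

namespace Pool.Agent.K9h85.RW

variable {α : Type*}

/-- finite sequences of steps with the sum of their labels -/
inductive Path (L : α → α → Bool → Prop) : α → α → Bool → Prop
  | refl (a : α) : Path L a a false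
  | cons {a b c : α} {p q : Bool} : L a b p → Path L b c q → Path L a c (xor p q)

theorem Path.trans {L : α → α → Bool → Prop} {a b c : α} {p q : Bool} (h : Path L a b p) (h' : Path L b c q) :
    Path L a c (xor p q) := by
  induction h with
  | refl a => rw [Bool.false_xor]; exact h'
  | cons h1 _ ih => rw [Bool.xor_assoc]; exact Path.cons h1 (ih h')

theorem Path.single {L : α → α → Bool → Prop} {a b : α} {p : Bool} (h : L a b p) : Path L a b p := by
  have := Path.cons h (Path.refl b)
  rwa [Bool.xor_false] at this

section
variable (L : α → α → Bool → Prop) (hwf : WellFounded (fun y x => ∃ p, L x y p))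
  (hloc : ∀ a b b' p p', L a b p → L a b' p' →
    ∃ d q q', Path L b d q ∧ Path L b' d q' ∧ xor p q = xor p' q')

include hwf hloc

theorem labelled_confluence (a : α) : ∀ x y p q, Path L a x p → Path L a y q →
    ∃ z r s, Path L x z r ∧ Path L y z s ∧ xor p r = xor q s := by
  induction a using hwf.induction with
  | _ a ih =>
    intro x y p q hp hq
    cases hp with
    | refl => exact ⟨y, q, false, hq, Path.refl y, by simp⟩
    | @cons _ b _ p1 p2 h1 h2 =>
      cases hq with
      | refl => exact ⟨x, false, xor p1 p2, Path.refl x, Path.cons h1 h2, by simp⟩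
      | @cons _ b' _ q1 q2 h3 h4 =>
        obtain ⟨d, e, e', hd, hd', he⟩ := hloc a b b' p1 q1 h1 h3
        obtain ⟨z1, r1, s1, k1, k2, k3⟩ := ih b ⟨p1, h1⟩ x d p2 e h2 hd
        obtain ⟨z, s2, r2, k4, k5, k6⟩ := ih b' ⟨q1, h3⟩ y z1 q2 (xor e' s1) h4 (hd'.trans k2)
        refine ⟨z, xor r1 r2, s2, k1.trans k5, k4, ?_⟩
        revert he k3 k6
        cases p1 <;> cases p2 <;> cases q1 <;> cases q2 <;> cases e <;> cases e' <;> cases r1 <;> cases s1 <;>
          cases r2 <;> cases s2 <;> simp

theorem exists_potential : ∃ Φ : α → Bool, ∀ a b p, L a b p → Φ a = xor p (Φ b) := by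
  classical
  have hex : ∀ a, ∃ x p, Path L a x p ∧ ∀ y q, ¬ L x y q := by
    intro a
    induction a using hwf.induction with
    | _ a ih =>
      by_cases h : ∃ b p, L a b p
      · obtain ⟨b, p, hb⟩ := h
        obtain ⟨x, q, hx, hn⟩ := ih b ⟨p, hb⟩
        exact ⟨x, xor p q, Path.cons hb hx, hn⟩
      · push Not at h
        exact ⟨a, false, Path.refl a, h⟩
  choose X P hP hX using hex
  have huniq : ∀ a x p, Path L a x p → (∀ y q, ¬ L x y q) → p = P a := by
    intro a x p hp hx
    obtain ⟨z, r, s, h1, h2, h3⟩ := labelled_confluence L hwf hloc a x (X a) p (P a) hp (hP a)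
    have e1 : r = false := by
      cases h1 with
      | refl => rfl
      | cons h4 _ => exact absurd h4 (hx _ _)
    have e2 : s = false := by
      cases h2 with
      | refl => rfl
      | cons h4 _ => exact absurd h4 (hX a _ _)
    rw [e1, e2] at h3
    simpa using h3
  refine ⟨P, ?_⟩
  intro a b p h
  exact (huniq a (X b) _ (Path.cons h (hP b)) (hX b)).symm

end

end Pool.Agent.K9h85.RW
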