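import Pool.Agent.K9h85.RW.Mid

set_option autoImplicit false

/-!
# The two ways of removing the exchange
-/

namespace Pool.Agent.K9h85.RW

open Pool.Agent.H213 RkMonoid Pool.Agent.H213.PM Module

variable {n : ℕ} (hn : 5 ≤ n)

theorem eg_sg {i : Fin n} {A : Set (Fin n)} (h : i ∉ A) : eg A * sg i = eg A :=
  io_mul_left (by simpa using Es_mul_ss h)

/-- the exchange of the first two points with the help of the fifth -/
def gg : IG (PM n) := gam (pt hn 0) (pt hn 1) (pt hn 4)

/-- its mirror image -/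
def aa : IG (PM n) := alp (pt hn 0) (pt hn 1) (pt hn 4)

theorem h01 : pt hn 0 ≠ pt hn 1 := by rw [Ne, pt_inj]; decide
theorem h04 : pt hn 0 ≠ pt hn 4 := by rw [Ne, pt_inj]; decide
theorem h14 : pt hn 1 ≠ pt hn 4 := by rw [Ne, pt_inj]; decide

theorem mem01 : pt hn 0 ∈ (fE1 hn : Set (Fin n)) := by simp [fE1]
theorem mem11 : pt hn 1 ∈ (fE1 hn : Set (Fin n)) := by simp [fE1]
theorem mem02 : pt hn 0 ∈ (fE2 hn : Set (Fin n)) := by simp [fE2]
theorem mem12 : pt hn 1 ∈ (fE2 hn : Set (Fin n)) := by simp [fE2]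
theorem mem0D : pt hn 0 ∈ (fD hn : Set (Fin n)) := by simp [fD]
theorem mem1D : pt hn 1 ∈ (fD hn : Set (Fin n)) := by simp [fD]
theorem mem41 : pt hn 4 ∉ (fE1 hn : Set (Fin n)) := by
  simp only [fE1, Finset.mem_coe, Finset.mem_insert, Finset.mem_singleton, pt_inj]; decide
theorem mem42 : pt hn 4 ∉ (fE2 hn : Set (Fin n)) := by
  simp only [fE2, Finset.mem_coe, Finset.mem_insert, Finset.mem_singleton, pt_inj]; decide
theorem mem4D : pt hn 4 ∉ (fD hn : Set (Fin n)) := by
  simp only [fD, Finset.mem_coe, Finset.mem_insert, Finset.mem_singleton, pt_inj]; decide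
theorem mem0A : pt hn 0 ∉ (fA hn : Set (Fin n)) := by
  simp only [fA, Finset.mem_coe, Finset.mem_singleton, pt_inj]; decide
theorem mem1A : pt hn 1 ∉ (fA hn : Set (Fin n)) := by
  simp only [fA, Finset.mem_coe, Finset.mem_singleton, pt_inj]; decide
theorem mem4A : pt hn 4 ∉ (fA hn : Set (Fin n)) := by
  simp only [fA, Finset.mem_coe, Finset.mem_singleton, pt_inj]; decide
theorem mem0B : pt hn 0 ∉ (fB hn : Set (Fin n)) := by
  simp only [fB, Finset.mem_coe, Finset.mem_singleton, pt_inj]; decide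
theorem mem1B : pt hn 1 ∉ (fB hn : Set (Fin n)) := by
  simp only [fB, Finset.mem_coe, Finset.mem_singleton, pt_inj]; decide
theorem mem4B : pt hn 4 ∉ (fB hn : Set (Fin n)) := by
  simp only [fB, Finset.mem_coe, Finset.mem_singleton, pt_inj]; decide

theorem trans12 : io (i1 hn) * aa hn * io (i2 hn) = aa hn * io (i1 hn) * io (i2 hn) :=
  transmit (h01 hn) (h04 hn) (h14 hn) (mem01 hn) (mem11 hn) (mem41 hn)
    (by rw [rk_Es_finset, card1]; exact hn) (mem42 hn)

theorem trans21 : io (i2 hn) * aa hn * io (i1 hn) = aa hn * io (i2 hn) * io (i1 hn) :=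
  transmit (h01 hn) (h04 hn) (h14 hn) (mem02 hn) (mem12 hn) (mem42 hn)
    (by rw [rk_Es_finset, card2]; exact hn) (mem41 hn)

theorem e2_gg : io (i2 hn) * gg hn = aa hn * io (i2 hn) :=
  (eg_gam (h01 hn) (h04 hn) (h14 hn) (mem02 hn) (mem12 hn) (mem42 hn)
    (by rw [rk_Es_finset, card2]; exact hn)).1

theorem C_gg (m : ℕ) : (io (i1 hn) * io (i2 hn)) ^ (m + 1) * gg hn = aa hn * (io (i1 hn) * io (i2 hn)) ^ (m + 1) := by
  have key : io (i1 hn) * io (i2 hn) * gg hn = aa hn * (io (i1 hn) * io (i2 hn)) := by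
    rw [mul_assoc, e2_gg, ← mul_assoc, trans12, mul_assoc]
  induction m with
  | zero => rw [zero_add, pow_one, key]
  | succ m ih =>
    -- (e1 e2) (e1 e2)^(m+1) γ = (e1 e2) α (e1 e2)^(m+1)
    rw [pow_succ' _ (m + 1), mul_assoc, ih]
    have h2 : (io (i1 hn) * io (i2 hn)) ^ (m + 1) = io (i1 hn) * (io (i2 hn) * (io (i1 hn) * io (i2 hn)) ^ m) := by
      rw [pow_succ', mul_assoc]
    rw [h2]
    calc io (i1 hn) * io (i2 hn) * (aa hn * (io (i1 hn) * (io (i2 hn) * (io (i1 hn) * io (i2 hn)) ^ m)))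
        = io (i1 hn) * (io (i2 hn) * aa hn * io (i1 hn)) * (io (i2 hn) * (io (i1 hn) * io (i2 hn)) ^ m) := by
          simp only [mul_assoc]
      _ = io (i1 hn) * (aa hn * io (i2 hn) * io (i1 hn)) * (io (i2 hn) * (io (i1 hn) * io (i2 hn)) ^ m) := by
          rw [trans21]
      _ = (io (i1 hn) * aa hn * io (i2 hn)) * (io (i1 hn) * (io (i2 hn) * (io (i1 hn) * io (i2 hn)) ^ m)) := by
          simp only [mul_assoc]
      _ = (aa hn * io (i1 hn) * io (i2 hn)) * (io (i1 hn) * (io (i2 hn) * (io (i1 hn) * io (i2 hn)) ^ m)) := by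
          rw [trans12]
      _ = _ := by simp only [mul_assoc]

/-- the exchange is absorbed by the left end -/
theorem left_id (m : ℕ) : io (iA hn) * (io (i1 hn) * io (i2 hn)) ^ (m + 1) * gg hn =
    io (iA hn) * (io (i1 hn) * io (i2 hn)) ^ (m + 1) := by
  rw [mul_assoc, C_gg]
  have hr : rk (val (io (iA hn))) + 2 ≤ n := by
    rw [val_io, rkA]; omega
  apply alp_absorb (h01 hn) (h04 hn) (h14 hn) (reg_io _) hr
  · rw [val_io]; exact Es_mul_ss (mem0A hn)
  · rw [val_io]; exact Es_mul_ss (mem1A hn)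
  · rw [val_io]; exact Es_mul_ss (mem4A hn)
  · rw [pow_succ', ← mul_assoc, ← mul_assoc]
    rw [show sg (pt hn 4) * io (i1 hn) = io (i1 hn) from sg_eg (mem41 hn)]

/-- the exchange is absorbed by the right end -/
theorem right_id : io (i2 hn) * gg hn * io (iB hn) = io (i2 hn) * io (iB hn) := by
  have hr : rk (val (io (iB hn))) + 2 ≤ n := by
    rw [val_io, rkB]; omega
  apply gam_absorb (h01 hn) (h04 hn) (h14 hn) (reg_io _) hr
  · rw [val_io]; exact ss_mul_Es (mem0B hn)
  · rw [val_io]; exact ss_mul_Es (mem1B hn)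
  · rw [val_io]; exact ss_mul_Es (mem4B hn)
  · exact eg_sg (mem42 hn)

/-! ### signs -/

theorem tb_D {i j : Fin n} : tb (Es (fD hn : Set (Fin n))) i j ↔ i = j ∧ (i = pt hn 0 ∨ i = pt hn 1) := by
  classical
  rw [tb_iff]
  constructor
  · intro h
    have h1 : i = j := by
      by_contra hne
      have := h (Function.update 0 i 1) (Function.update 0 i 1) (mem_C_Es.2 (fun _ _ => rfl))
      rw [Function.update_self, Function.update_of_ne (fun h => hne h.symm)] at this
      simp at this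
    refine ⟨h1, ?_⟩
    by_contra hne
    push Not at hne
    have := h (Function.update 0 i 1) 0 (mem_C_Es.2 (by
      intro k hk
      have hk' : k = pt hn 0 ∨ k = pt hn 1 := by simpa [fD] using hk
      have : k ≠ i := by
        rintro rfl
        rcases hk' with h | h
        · exact hne.1 h
        · exact hne.2 h
      rw [Function.update_of_ne this]))
    rw [Function.update_self] at this
    simp at this
  · rintro ⟨rfl, h⟩ f g hfg
    apply mem_C_Es.1 hfg
    rcases h with h | h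
    · rw [h]; exact mem0D hn
    · rw [h]; exact mem1D hn

theorem le_pt {i : Fin n} (h : i = pt hn 0 ∨ i = pt hn 1) : pt hn 0 ≤ i := by
  rcases h with rfl | rfl
  · exact le_refl _
  · rw [Fin.le_def]
    simp [pt]

theorem top_D : IsLeast {i | ∃ j, tb (Es (fD hn : Set (Fin n))) i j} (pt hn 0) := by
  constructor
  · exact ⟨pt hn 0, (tb_D hn).2 ⟨rfl, Or.inl rfl⟩⟩
  · rintro i ⟨j, hj⟩
    exact le_pt hn ((tb_D hn).1 hj).2

theorem bot_D : IsLeast {j | mkd (Es (fD hn : Set (Fin n))) j} (pt hn 0) := by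
  constructor
  · exact ⟨pt hn 0, (tb_D hn).2 ⟨rfl, Or.inl rfl⟩⟩
  · rintro j ⟨i, hj⟩
    obtain ⟨rfl, h⟩ := (tb_D hn).1 hj
    exact le_pt hn h

theorem sg_D : Sg (Es (fD hn : Set (Fin n))) :=
  (sg_iff (top_D hn) (bot_D hn)).2 ((tb_D hn).2 ⟨rfl, Or.inl rfl⟩)

/-- membership for the exchanged partition -/
theorem mem_C_Dg {f g : Vec n} : (f, g) ∈ (Es (fD hn : Set (Fin n)) * val (gg hn)).C ↔
    f (pt hn 0) = g (pt hn 1) ∧ f (pt hn 1) = g (pt hn 0) := by
  unfold gg
  rw [mem_C_gam (h01 hn) (h04 hn) (h14 hn) (mem0D hn) (mem1D hn) (mem4D hn)]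
  constructor
  · rintro ⟨h1, h2, -⟩; exact ⟨h1, h2⟩
  · rintro ⟨h1, h2⟩
    refine ⟨h1, h2, ?_⟩
    intro i hi h3 h4
    have : i = pt hn 0 ∨ i = pt hn 1 := by simpa [fD] using hi
    rcases this with h | h
    · exact absurd h h3
    · exact absurd h h4

theorem tb_Dg {i j : Fin n} : tb (Es (fD hn : Set (Fin n)) * val (gg hn)) i j ↔
    (i = pt hn 0 ∧ j = pt hn 1) ∨ (i = pt hn 1 ∧ j = pt hn 0) := by
  classical
  rw [tb_iff]
  constructor
  · intro h
    -- the vector pairs
    let F : ZMod 2 → ZMod 2 → Vec n := fun a b =>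
      Function.update (Function.update (0 : Vec n) (pt hn 0) a) (pt hn 1) b
    have F0 : ∀ a b, F a b (pt hn 0) = a := by
      intro a b
      show Function.update (Function.update (0 : Vec n) (pt hn 0) a) (pt hn 1) b (pt hn 0) = a
      rw [Function.update_of_ne (h01 hn), Function.update_self]
    have F1 : ∀ a b, F a b (pt hn 1) = b := by
      intro a b
      exact Function.update_self _ _ _
    have hF : ∀ a b, (F a b, F b a) ∈ (Es (fD hn : Set (Fin n)) * val (gg hn)).C := by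
      intro a b
      rw [mem_C_Dg, F0, F0, F1, F1]
      exact ⟨rfl, rfl⟩
    have hi : i = pt hn 0 ∨ i = pt hn 1 := by
      by_contra hne
      push Not at hne
      have n0 : pt hn 0 ≠ i := fun h => hne.1 h.symm
      have n1 : pt hn 1 ≠ i := fun h => hne.2 h.symm
      have := h (Function.update (0 : Vec n) i 1) (0 : Vec n) (by
        rw [mem_C_Dg, Function.update_of_ne n0, Function.update_of_ne n1]
        exact ⟨rfl, rfl⟩)
      rw [Function.update_self] at this
      simp at this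
    have hj : j = pt hn 0 ∨ j = pt hn 1 := by
      by_contra hne
      push Not at hne
      have n0 : pt hn 0 ≠ j := fun h => hne.1 h.symm
      have n1 : pt hn 1 ≠ j := fun h => hne.2 h.symm
      have := h (0 : Vec n) (Function.update (0 : Vec n) j 1) (by
        rw [mem_C_Dg, Function.update_of_ne n0, Function.update_of_ne n1]
        exact ⟨rfl, rfl⟩)
      rw [Function.update_self] at this
      simp at this
    rcases hi with rfl | rfl <;> rcases hj with rfl | rfl
    · have := h _ _ (hF 1 0)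
      rw [F0, F0] at this
      simp at this
    · exact Or.inl ⟨rfl, rfl⟩
    · exact Or.inr ⟨rfl, rfl⟩
    · have := h _ _ (hF 1 0)
      rw [F1, F1] at this
      simp at this
  · rintro (⟨rfl, rfl⟩ | ⟨rfl, rfl⟩) f g hfg
    · exact ((mem_C_Dg hn).1 hfg).1
    · exact ((mem_C_Dg hn).1 hfg).2

theorem top_Dg : IsLeast {i | ∃ j, tb (Es (fD hn : Set (Fin n)) * val (gg hn)) i j} (pt hn 0) := by
  constructor
  · exact ⟨pt hn 1, (tb_Dg hn).2 (Or.inl ⟨rfl, rfl⟩)⟩
  · rintro i ⟨j, hj⟩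
    apply le_pt hn
    rcases (tb_Dg hn).1 hj with h | h
    · exact Or.inl h.1
    · exact Or.inr h.1

theorem bot_Dg : IsLeast {j | mkd (Es (fD hn : Set (Fin n)) * val (gg hn)) j} (pt hn 0) := by
  constructor
  · exact ⟨pt hn 1, (tb_Dg hn).2 (Or.inr ⟨rfl, rfl⟩)⟩
  · rintro i ⟨j, hj⟩
    apply le_pt hn
    rcases (tb_Dg hn).1 hj with h | h
    · exact Or.inr h.2
    · exact Or.inl h.2

theorem not_sg_Dg : ¬ Sg (Es (fD hn : Set (Fin n)) * val (gg hn)) := by
  rw [sg_iff (top_Dg hn) (bot_Dg hn), tb_Dg]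
  rintro (⟨-, h⟩ | ⟨h, -⟩)
  · exact h01 hn h
  · exact h01 hn h

theorem rk_Dg : rk (Es (fD hn : Set (Fin n)) * val (gg hn)) = 2 := by
  have h := Es_gam_gam (h01 hn) (h04 hn) (h14 hn) (mem0D hn) (mem1D hn) (mem4D hn)
  apply le_antisymm
  · rw [← rkD hn]; exact rk_mul_le_left _ _
  · rw [← rkD hn]
    conv_lhs => rw [← h]
    exact rk_mul_le_left _ _

/-- removing the exchange changes the sign -/
theorem sg_flip {t : PM n} (h : LR t (Es (fD hn : Set (Fin n)))) : Sg t ↔ ¬ Sg (t * val (gg hn)) := by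
  have hr : rk t = 2 := by rw [h.rk, rkD]
  have h' := h.mul (val (gg hn))
  have hr' : rk (t * val (gg hn)) = 2 := by rw [h'.rk, rk_Dg]
  have h1 := sign_lemma hr h hr'
  have h2 := sg_D hn
  have h3 := not_sg_Dg hn
  tauto

end Pool.Agent.K9h85.RW
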