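import Pool.Agent.K9h85.RW.Labels
import Pool.Agent.K9h85.RW.Newman
import Mathlib.Data.Set.Finite.Basic
import Mathlib.Data.Finset.Lattice.Fold

set_option autoImplicit false

/-!
# Finite complete rewriting systems for `IG (PM n)` do not exist, list version
-/

namespace Pool.Agent.K9h85.RW

open Pool.Agent.H213 RkMonoid Pool.Agent.H213.PM Module Relation

variable {n : ℕ} {A : Type}

/-- one replacement in a list -/
def LStep (R : Set (List A × List A)) (u v : List A) : Prop :=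
  ∃ x y l r, (l, r) ∈ R ∧ u = x ++ l ++ y ∧ v = x ++ r ++ y

/-- a finite complete system of rules for `IG (PM n)` without the identity, where the letter `α` stands
for the word `ex α` -/
structure Sys (ex : A → List (Idem (PM n))) (R : Set (List A × List A)) : Prop where
  len : ∃ K : ℕ, ∀ α, (ex α).length ≤ K
  fin : ∃ M : ℕ, ∀ p ∈ R, p.1.length ≤ M
  ne : ∀ p ∈ R, p.1 ≠ []
  sound : ∀ p ∈ R, mkw (p.1.flatMap ex) = mkw (p.2.flatMap ex)
  complete : ∀ u v : List A, u ≠ [] → v ≠ [] → mkw (u.flatMap ex) = mkw (v.flatMap ex) →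
    EqvGen (LStep R) u v
  wf : WellFounded (fun y x => LStep R x y)
  conf : ∀ u v w, LStep R u v → LStep R u w → ∃ t, ReflTransGen (LStep R) v t ∧ ReflTransGen (LStep R) w t
  surj : ∀ w : List (Idem (PM n)), w ≠ [] → ∃ u : List A, u ≠ [] ∧ mkw (u.flatMap ex) = mkw w

theorem LStep.ctx {R : Set (List A × List A)} {u v : List A} (h : LStep R u v) (x y : List A) :
    LStep R (x ++ u ++ y) (x ++ v ++ y) := by
  obtain ⟨x', y', l, r, hlr, rfl, rfl⟩ := h
  exact ⟨x ++ x', y' ++ y, l, r, hlr, by simp, by simp⟩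

section
variable (ex : A → List (Idem (PM n)))

theorem flat3 (x l y : List A) : (x ++ l ++ y).flatMap ex = x.flatMap ex ++ l.flatMap ex ++ y.flatMap ex := by
  rw [List.flatMap_append, List.flatMap_append]

open Classical in
/-- the sign of the middle -/
noncomputable def sgb (w : List A) : Bool := decide (Sg (vl (midW (w.flatMap ex))))

/-- the label of the replacement of `l` by `r` -/
noncomputable def lab (x l r y : List A) : Bool :=
  if rk (vl (x.flatMap ex)) = 0 then false else xor (sgb ex (x ++ l ++ y)) (sgb ex (x ++ r ++ y))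

/-- labelled steps between words for `a (e₁ e₂) ^ (m + 1) b` -/
def LL (hn : 5 ≤ n) (R : Set (List A × List A)) (m : ℕ) (a b : List A) (p : Bool) : Prop :=
  Std hn m (a.flatMap ex) ∧ ∃ x y l r, (l, r) ∈ R ∧ a = x ++ l ++ y ∧ b = x ++ r ++ y ∧ p = lab ex x l r y

variable {ex} {R : Set (List A × List A)} (hS : Sys ex R)

include hS

theorem Sys.step_mkw {u v : List A} (h : LStep R u v) : mkw (u.flatMap ex) = mkw (v.flatMap ex) := by
  obtain ⟨x, y, l, r, hlr, rfl, rfl⟩ := h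
  have := hS.sound _ hlr
  simp only [List.flatMap_append]
  exact mkw_ctx this _ _

/-- the labels of replacements inside a factor -/
theorem Sys.lab_ctx {x y : List A} (hxy : rk (vl (x.flatMap ex)) ≠ 0 → rk (vl (y.flatMap ex)) = 0)
    {x' y' l r : List A} (hlr : (l, r) ∈ R) :
    lab ex (x ++ x') l r (y' ++ y) = if rk (vl (x.flatMap ex)) = 0 then false else
      xor (sgb ex (x ++ (x' ++ l ++ y') ++ y)) (sgb ex (x ++ (x' ++ r ++ y') ++ y)) := by
  have e1 : (x ++ x') ++ l ++ (y' ++ y) = x ++ (x' ++ l ++ y') ++ y := by simp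
  have e2 : (x ++ x') ++ r ++ (y' ++ y) = x ++ (x' ++ r ++ y') ++ y := by simp
  unfold lab
  rw [e1, e2]
  by_cases h3 : rk (vl (x.flatMap ex)) = 0
  · have h4 : rk (vl ((x ++ x').flatMap ex)) = 0 := by
      rw [List.flatMap_append, vl_append]
      exact rk_mul_zero_left h3 _
    rw [if_pos h3, if_pos h4]
  · rw [if_neg h3]
    by_cases h4 : rk (vl ((x ++ x').flatMap ex)) = 0
    · rw [if_pos h4]
      have h5 : rk (vl ((y' ++ y).flatMap ex)) = 0 := by
        rw [List.flatMap_append, vl_append]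
        exact rk_mul_zero_right (hxy h3) _
      have h6 : sgb ex (x ++ (x' ++ l ++ y') ++ y) = sgb ex (x ++ (x' ++ r ++ y') ++ y) := by
        unfold sgb
        rw [← e1, ← e2, flat3 ex (x ++ x') l (y' ++ y), flat3 ex (x ++ x') r (y' ++ y),
          sg_zero_zero h4 h5 (hS.sound _ hlr)]
      rw [h6]; simp
    · rw [if_neg h4]

/-- closing a divergence inside a context -/
theorem Sys.ctx_path (hn : 5 ≤ n) {m : ℕ} {x y : List A} (hxy : rk (vl (x.flatMap ex)) ≠ 0 → rk (vl (y.flatMap ex)) = 0)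
    {c d : List A} (h : ReflTransGen (LStep R) c d) (hw : Std hn m ((x ++ c ++ y).flatMap ex)) :
    Path (LL ex hn R m) (x ++ c ++ y) (x ++ d ++ y)
      (if rk (vl (x.flatMap ex)) = 0 then false else xor (sgb ex (x ++ c ++ y)) (sgb ex (x ++ d ++ y))) := by
  induction h using ReflTransGen.head_induction_on with
  | refl =>
    have : (if rk (vl (x.flatMap ex)) = 0 then false else xor (sgb ex (x ++ d ++ y)) (sgb ex (x ++ d ++ y))) = false := by
      split_ifs <;> simp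
    rw [this]
    exact Path.refl _
  | @head a c h1 h2 ih =>
    have hw' : Std hn m ((x ++ c ++ y).flatMap ex) := by
      unfold Std at hw ⊢
      rw [← hw]
      simp only [List.flatMap_append]
      exact (mkw_ctx (hS.step_mkw h1) _ _).symm
    have ih' := ih hw'
    obtain ⟨x', y', l, r, hlr, rfl, rfl⟩ := h1
    have hs : LL ex hn R m (x ++ (x' ++ l ++ y') ++ y) (x ++ (x' ++ r ++ y') ++ y) (lab ex (x ++ x') l r (y' ++ y)) :=
      ⟨hw, x ++ x', y' ++ y, l, r, hlr, by simp, by simp, rfl⟩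
    have := Path.cons hs ih'
    rw [hS.lab_ctx hxy hlr] at this
    have e3 : xor (if rk (vl (x.flatMap ex)) = 0 then false else
        xor (sgb ex (x ++ (x' ++ l ++ y') ++ y)) (sgb ex (x ++ (x' ++ r ++ y') ++ y)))
        (if rk (vl (x.flatMap ex)) = 0 then false else
        xor (sgb ex (x ++ (x' ++ r ++ y') ++ y)) (sgb ex (x ++ d ++ y))) =
        (if rk (vl (x.flatMap ex)) = 0 then false else
        xor (sgb ex (x ++ (x' ++ l ++ y') ++ y)) (sgb ex (x ++ d ++ y))) := by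
      split_ifs
      · rfl
      · generalize sgb ex (x ++ (x' ++ l ++ y') ++ y) = b1
        generalize sgb ex (x ++ (x' ++ r ++ y') ++ y) = b2
        generalize sgb ex (x ++ d ++ y) = b3
        cases b1 <;> cases b2 <;> cases b3 <;> rfl
    rw [e3] at this
    exact this

/-- local divergences inside a short factor -/
theorem Sys.loc_overlap (hn : 5 ≤ n) {m : ℕ} {x y x1 y1 x2 y2 l1 r1 l2 r2 : List A}
    (he : x1 ++ l1 ++ y1 = x2 ++ l2 ++ y2) (hc : ((x1 ++ l1 ++ y1).flatMap ex).length ≤ 2 * m)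
    (h1 : (l1, r1) ∈ R) (h2 : (l2, r2) ∈ R) (hw : Std hn m ((x ++ (x1 ++ l1 ++ y1) ++ y).flatMap ex)) :
    ∃ d q q', Path (LL ex hn R m) (x ++ (x1 ++ r1 ++ y1) ++ y) d q ∧
      Path (LL ex hn R m) (x ++ (x2 ++ r2 ++ y2) ++ y) d q' ∧
      xor (lab ex (x ++ x1) l1 r1 (y1 ++ y)) q = xor (lab ex (x ++ x2) l2 r2 (y2 ++ y)) q' := by
  have hxy : rk (vl (x.flatMap ex)) ≠ 0 → rk (vl (y.flatMap ex)) = 0 := by
    intro hx
    by_contra hy
    have h3 := mid_short (c := (x1 ++ l1 ++ y1).flatMap ex) hx hy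
    have h4 := hw.length
    rw [flat3 ex x (x1 ++ l1 ++ y1) y] at h4
    omega
  have s1 : LStep R (x1 ++ l1 ++ y1) (x1 ++ r1 ++ y1) := ⟨x1, y1, l1, r1, h1, rfl, rfl⟩
  have s2 : LStep R (x1 ++ l1 ++ y1) (x2 ++ r2 ++ y2) := ⟨x2, y2, l2, r2, h2, he, rfl⟩
  obtain ⟨d, hd1, hd2⟩ := hS.conf _ _ _ s1 s2
  have hstd : ∀ c', LStep R (x1 ++ l1 ++ y1) c' → Std hn m ((x ++ c' ++ y).flatMap ex) := by
    intro c' h
    unfold Std at hw ⊢
    rw [← hw, flat3, flat3 ex x (x1 ++ l1 ++ y1) y]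
    exact (mkw_ctx (hS.step_mkw h) _ _).symm
  refine ⟨x ++ d ++ y, _, _, hS.ctx_path hn hxy hd1 (hstd _ s1), hS.ctx_path hn hxy hd2 (hstd _ s2), ?_⟩
  rw [hS.lab_ctx hxy h1, hS.lab_ctx hxy h2, ← he]
  split_ifs
  · rfl
  · generalize sgb ex (x ++ (x1 ++ l1 ++ y1) ++ y) = b1
    generalize sgb ex (x ++ (x1 ++ r1 ++ y1) ++ y) = b2
    generalize sgb ex (x ++ (x2 ++ r2 ++ y2) ++ y) = b3
    generalize sgb ex (x ++ d ++ y) = b4
    cases b1 <;> cases b2 <;> cases b3 <;> cases b4 <;> rfl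

/-- disjoint replacements -/
theorem Sys.loc_disjoint (hn : 5 ≤ n) {m : ℕ} {x s y l1 r1 l2 r2 : List A}
    (h1 : (l1, r1) ∈ R) (h2 : (l2, r2) ∈ R) (hw : Std hn m ((x ++ l1 ++ s ++ (l2 ++ y)).flatMap ex)) :
    ∃ d q q', Path (LL ex hn R m) (x ++ r1 ++ s ++ (l2 ++ y)) d q ∧
      Path (LL ex hn R m) (x ++ l1 ++ s ++ (r2 ++ y)) d q' ∧
      xor (lab ex x l1 r1 (s ++ (l2 ++ y))) q = xor (lab ex (x ++ l1 ++ s) l2 r2 y) q' := by
  have k1 := hS.sound _ h1
  have k2 := hS.sound _ h2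
  simp only at k1 k2
  have hw1 : Std hn m ((x ++ r1 ++ s ++ (l2 ++ y)).flatMap ex) := by
    unfold Std at hw ⊢
    rw [← hw]
    simp only [List.flatMap_append, mkw_append, k1]
  have hw2 : Std hn m ((x ++ l1 ++ s ++ (r2 ++ y)).flatMap ex) := by
    unfold Std at hw ⊢
    rw [← hw]
    simp only [List.flatMap_append, mkw_append, k2]
  have t1 : LL ex hn R m (x ++ r1 ++ s ++ (l2 ++ y)) (x ++ r1 ++ s ++ (r2 ++ y)) (lab ex (x ++ r1 ++ s) l2 r2 y) :=
    ⟨hw1, x ++ r1 ++ s, y, l2, r2, h2, by simp, by simp, rfl⟩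
  have t2 : LL ex hn R m (x ++ l1 ++ s ++ (r2 ++ y)) (x ++ r1 ++ s ++ (r2 ++ y)) (lab ex x l1 r1 (s ++ (r2 ++ y))) :=
    ⟨hw2, x, s ++ (r2 ++ y), l1, r1, h1, by simp, by simp, rfl⟩
  refine ⟨x ++ r1 ++ s ++ (r2 ++ y), _, _, Path.single t1, Path.single t2, ?_⟩
  unfold lab
  have e1 : x ++ l1 ++ (s ++ (l2 ++ y)) = x ++ l1 ++ s ++ (l2 ++ y) := by simp
  have e2 : x ++ r1 ++ (s ++ (l2 ++ y)) = x ++ r1 ++ s ++ (l2 ++ y) := by simp
  have e3 : x ++ r1 ++ s ++ l2 ++ y = x ++ r1 ++ s ++ (l2 ++ y) := by simp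
  have e4 : x ++ r1 ++ s ++ r2 ++ y = x ++ r1 ++ s ++ (r2 ++ y) := by simp
  have e5 : x ++ l1 ++ s ++ l2 ++ y = x ++ l1 ++ s ++ (l2 ++ y) := by simp
  have e6 : x ++ l1 ++ s ++ r2 ++ y = x ++ l1 ++ s ++ (r2 ++ y) := by simp
  have e7 : x ++ l1 ++ (s ++ (r2 ++ y)) = x ++ l1 ++ s ++ (r2 ++ y) := by simp
  have e8 : x ++ r1 ++ (s ++ (r2 ++ y)) = x ++ r1 ++ s ++ (r2 ++ y) := by simp
  rw [e1, e2, e3, e4, e5, e6, e7, e8]
  have hv : vl ((x ++ r1 ++ s).flatMap ex) = vl ((x ++ l1 ++ s).flatMap ex) := by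
    rw [flat3, flat3, vl_append, vl_append, vl_append, vl_append, vl_congr k1]
  rw [hv]
  by_cases c1 : rk (vl (x.flatMap ex)) = 0
  · have c2 : rk (vl ((x ++ l1 ++ s).flatMap ex)) = 0 := by
      rw [flat3, vl_append, vl_append, mul_assoc]
      exact rk_mul_zero_left c1 _
    rw [if_pos c1, if_pos c2, if_pos c2, if_pos c1]
  · by_cases c2 : rk (vl ((x ++ l1 ++ s).flatMap ex)) = 0
    · rw [if_neg c1, if_pos c2, if_pos c2, if_neg c1]
      have g1 : ∀ u v w z t : List A, (u ++ v ++ w ++ (z ++ t)).flatMap ex =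
          u.flatMap ex ++ v.flatMap ex ++ w.flatMap ex ++ (z.flatMap ex ++ t.flatMap ex) := by
        intro u v w z t
        simp only [List.flatMap_append]
      have key := sg_disjoint hn (m := m) (x := x.flatMap ex) (y := s.flatMap ex) (z := y.flatMap ex) k1 k2
        (by rw [← flat3]; exact c2) (by rw [← g1]; exact hw)
      rw [← g1, ← g1, ← g1, ← g1] at key
      unfold sgb
      rw [Bool.xor_false, Bool.false_xor]
      by_cases q1 : Sg (vl (midW ((x ++ l1 ++ s ++ (l2 ++ y)).flatMap ex))) <;>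
      by_cases q2 : Sg (vl (midW ((x ++ r1 ++ s ++ (l2 ++ y)).flatMap ex))) <;>
      by_cases q3 : Sg (vl (midW ((x ++ l1 ++ s ++ (r2 ++ y)).flatMap ex))) <;>
      by_cases q4 : Sg (vl (midW ((x ++ r1 ++ s ++ (r2 ++ y)).flatMap ex))) <;>
      simp_all
    · rw [if_neg c1, if_neg c2, if_neg c2, if_neg c1]
      generalize sgb ex (x ++ l1 ++ s ++ (l2 ++ y)) = b1
      generalize sgb ex (x ++ r1 ++ s ++ (l2 ++ y)) = b2
      generalize sgb ex (x ++ l1 ++ s ++ (r2 ++ y)) = b3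
      generalize sgb ex (x ++ r1 ++ s ++ (r2 ++ y)) = b4
      cases b1 <;> cases b2 <;> cases b3 <;> cases b4 <;> rfl

end

end Pool.Agent.K9h85.RW
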